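import Pool.Agent.U714.NC.Pow

/-!
# Truncated counts of near-coincidences: the criterion for general truncations
-/

set_option autoImplicit false

namespace Pool.Agent.U714.NC

open Real Filter Set Asymptotics Topology
open Pool.Agent.H491R3.PE Pool.Agent.TH709.NC

variable {a b : ℝ}

/-- the exceptional approximations of the truncation function `T` -/
def Bad (T : ℝ → ℝ) (α δ : ℝ) : Set (ℕ × ℕ) :=
  {l | 1 ≤ l.1 ∧ ∃ x : ℝ, 2 ≤ x ∧ δ * l.1 * log x ^ 2 ≤ T x ∧
    |(l.1 : ℝ) * α - l.2| < exp (-(δ * l.1 * log x ^ 2))}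

/-- all large pairs lie on one line -/
theorem single (ha : 1 < a) (hb : 1 < b) {κ : ℝ} (hκ : 0 < κ) : ∃ C₁ : ℝ, 0 < C₁ ∧
    ∀ x T : ℝ, 2 ≤ x → T ≤ x ^ κ → ∀ n m n' m' : ℕ, (n : ℝ) ≤ T → (n' : ℝ) ≤ T →
      C₁ * log x < n → C₁ * log x < n' → |a ^ n - b ^ m| ≤ x → |a ^ n' - b ^ m'| ≤ x →
      n * m' = n' * m := by
  have hA : 0 < log a := log_pos ha
  have hB : 0 < log b := log_pos hb
  have hl2 : 0 < log 2 := log_pos (by norm_num)
  set c := |log (4 / log b)| with hc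
  have hc0 : 0 ≤ c := abs_nonneg _
  refine ⟨(κ + 2 + c / log 2) / log a, by positivity, ?_⟩
  intro x T hx hT n m n' m' hn hn' hCn hCn' h h'
  have hx0 : 0 < x := by linarith
  have hlx : log 2 ≤ log x := Real.log_le_log (by norm_num) hx
  have hlx0 : 0 < log x := by linarith
  have key : ∀ k : ℕ, (κ + 2 + c / log 2) / log a * log x < k →
      x ^ 2 < a ^ k ∧ 4 / log b * (x ^ κ * x) < a ^ k := by
    intro k hk
    rw [div_mul_eq_mul_div, div_lt_iff₀ hA] at hk
    have hcl : c ≤ c / log 2 * log x := by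
      rw [div_mul_eq_mul_div, le_div_iff₀ hl2]
      exact mul_le_mul_of_nonneg_left hlx hc0
    have hk' : (κ + 2) * log x + c < k * log a := by nlinarith
    constructor
    · rw [← Real.log_lt_log_iff (by positivity) (by positivity), Real.log_pow, Real.log_pow]
      push_cast
      have : 0 < κ * log x := by positivity
      nlinarith
    · rw [← Real.log_lt_log_iff (by positivity) (by positivity), Real.log_pow,
        Real.log_mul (by positivity) (by positivity), Real.log_mul (by positivity) (by positivity),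
        Real.log_rpow hx0]
      have := le_abs_self (log (4 / log b))
      nlinarith
  obtain ⟨k1, k2⟩ := key n hCn
  obtain ⟨k1', k2'⟩ := key n' hCn'
  have g1 := near ha hb hx h k1
  have g1' := near ha hb hx h' k1'
  have hT0 : 0 ≤ x ^ κ := by positivity
  have hnk : (n : ℝ) ≤ x ^ κ := hn.trans hT
  have hnk' : (n' : ℝ) ≤ x ^ κ := hn'.trans hT
  have bound : ∀ k : ℕ, 4 / log b * (x ^ κ * x) < a ^ k → x ^ κ * (2 * (x / a ^ k)) < log b / 2 := by
    intro k hk
    have hak : 0 < a ^ k := by positivity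
    have e : x ^ κ * (2 * (x / a ^ k)) = 2 * (x ^ κ * x) / a ^ k := by
      field_simp
    rw [e, div_lt_div_iff₀ hak (by norm_num)]
    have e2 : 4 / log b * (x ^ κ * x) * log b = 4 * (x ^ κ * x) := by field_simp
    have := mul_lt_mul_of_pos_right hk hB
    rw [e2] at this
    linarith
  have b1 := bound n k2
  have b2 := bound n' k2'
  have e3 : (((n : ℝ) * m' - n' * m)) * log b =
      n' * ((n : ℝ) * log a - m * log b) - n * ((n' : ℝ) * log a - m' * log b) := by ring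
  have h3 : |((n : ℝ) * m' - n' * m)| * log b < 1 * log b := by
    rw [← abs_of_pos hB, ← abs_mul, abs_of_pos hB, e3, one_mul]
    calc |(n' : ℝ) * ((n : ℝ) * log a - m * log b) - n * ((n' : ℝ) * log a - m' * log b)|
        ≤ |(n' : ℝ) * ((n : ℝ) * log a - m * log b)| + |(n : ℝ) * ((n' : ℝ) * log a - m' * log b)| :=
          abs_sub _ _
      _ ≤ x ^ κ * (2 * (x / a ^ n)) + x ^ κ * (2 * (x / a ^ n')) := by
          rw [abs_mul, abs_mul, abs_of_nonneg (Nat.cast_nonneg n' : (0 : ℝ) ≤ n'),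
            abs_of_nonneg (Nat.cast_nonneg n : (0 : ℝ) ≤ n)]
          exact add_le_add (mul_le_mul hnk' g1 (abs_nonneg _) hT0)
            (mul_le_mul hnk g1' (abs_nonneg _) hT0)
      _ < log b := by linarith
  have h4 := lt_of_mul_lt_mul_right h3 hB.le
  have h5 : |((n * m' : ℕ) : ℤ) - ((n' * m : ℕ) : ℤ)| < 1 := by
    have : |(((n * m' : ℕ) : ℤ) : ℝ) - (((n' * m : ℕ) : ℤ) : ℝ)| < 1 := by
      push_cast
      exact h4
    exact_mod_cast this
  rw [Int.abs_lt_one_iff] at h5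
  omega

/-- `RR` is bounded by the multiples on a single line -/
theorem RR_single (ha : 1 < a) (hb : 1 < b) {κ : ℝ} (hκ : 0 < κ) : ∃ C : ℝ, 0 ≤ C ∧
    ∀ x T : ℝ, 2 ≤ x → 0 ≤ T → T ≤ x ^ κ → ((RR a b x T).ncard : ℝ) ≤ C * log x ∨
      ∃ l ∈ FF ha hb T, ((RR a b x T).ncard : ℝ) ≤ C * log x + ((GG a b x T l).card : ℝ) := by
  classical
  obtain ⟨C₁, hC₁, h1⟩ := single ha hb hκ
  obtain ⟨C₂, hC₂0, hC₂⟩ := sum_LL ha hb
  refine ⟨C₁ * C₂, by positivity, fun x T hx hT0 hT => ?_⟩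
  have hlx : 0 < log x := log_pos (by linarith)
  have hM0 : 0 ≤ C₁ * log x := by positivity
  obtain ⟨hfin, -⟩ := RR_card ha hb hx hT0
  obtain ⟨hfin1, hc1⟩ := RR_card ha hb hx hM0
  have h2 : ((RR a b x (C₁ * log x)).ncard : ℝ) ≤ C₁ * C₂ * log x := by
    refine hc1.trans ?_
    calc ∑ l ∈ FF ha hb (C₁ * log x), ((GG a b x (C₁ * log x) l).card : ℝ)
        ≤ ∑ l ∈ FF ha hb (C₁ * log x), C₁ * log x * (1 / l.1) :=
          Finset.sum_le_sum fun l _ => GG_le_div hM0 l
      _ = C₁ * log x * ∑ l ∈ FF ha hb (C₁ * log x), (1 : ℝ) / l.1 := by rw [Finset.mul_sum]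
      _ ≤ C₁ * log x * C₂ := mul_le_mul_of_nonneg_left (hC₂ _ fun l hl => mem_FF ha hb hl) hM0
      _ = _ := by ring
  set R2 : Set (ℕ × ℕ) := {p | p ∈ RR a b x T ∧ C₁ * log x < p.1} with hR2
  have hcov : RR a b x T ⊆ RR a b x (C₁ * log x) ∪ R2 := by
    intro p hp
    rcases le_or_gt (p.1 : ℝ) (C₁ * log x) with h3 | h3
    · exact Or.inl ⟨h3, hp.2⟩
    · exact Or.inr ⟨hp, h3⟩
  have hR2fin : R2.Finite := hfin.subset fun p hp => hp.1
  have h3 : ((RR a b x T).ncard : ℝ) ≤ (RR a b x (C₁ * log x)).ncard + R2.ncard := by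
    have h4 := Set.ncard_le_ncard hcov (hfin1.union hR2fin)
    have h5 := Set.ncard_union_le (RR a b x (C₁ * log x)) R2
    exact_mod_cast h4.trans h5
  rcases R2.eq_empty_or_nonempty with he | ⟨p₀, hp₀, hp₀'⟩
  · left
    rw [he, Set.ncard_empty] at h3
    push_cast at h3
    linarith
  · right
    obtain ⟨l, hl, g₀, rfl⟩ := on_of_large ha hb hx hp₀.2.1 hp₀.2.2
    have hl1 : 1 ≤ l.1 := hl.1
    have pos : ∀ (g : ℕ) (l' : ℕ × ℕ), x ^ 2 < a ^ (g * l'.1) → 1 ≤ g := by
      intro g l' hg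
      rcases Nat.eq_zero_or_pos g with h0 | h0
      · exfalso
        rw [h0] at hg
        simp only [zero_mul, pow_zero] at hg
        nlinarith
      · exact h0
    have hg₀ : 1 ≤ g₀ := pos g₀ l hp₀.2.2
    refine ⟨l, ?_, ?_⟩
    · rw [FF, Set.Finite.mem_toFinset]
      exact ⟨hl, (Nat.le_mul_of_pos_left _ hg₀).trans ((Nat.le_floor_iff hT0).2 hp₀.1)⟩
    have hsub : R2 ⊆ (((GG a b x T l).image fun g => (g * l.1, g * l.2) : Finset (ℕ × ℕ)) :
        Set (ℕ × ℕ)) := by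
      rintro p ⟨hp, hp'⟩
      obtain ⟨l', hl', g, rfl⟩ := on_of_large ha hb hx hp.2.1 hp.2.2
      have hl'1 : 1 ≤ l'.1 := hl'.1
      have hg : 1 ≤ g := pos g l' hp.2.2
      have e := h1 x T hx hT _ _ _ _ hp.1 hp₀.1 hp' hp₀' hp.2.1 hp₀.2.1
      simp only at e
      have e2 : l'.1 * l.2 = l.1 * l'.2 := by
        have e3 : (g * g₀) * (l'.1 * l.2) = (g * g₀) * (l.1 * l'.2) := by
          calc (g * g₀) * (l'.1 * l.2) = g * l'.1 * (g₀ * l.2) := by ring
            _ = g₀ * l.1 * (g * l'.2) := e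
            _ = _ := by ring
        exact Nat.eq_of_mul_eq_mul_left (Nat.mul_pos hg hg₀) e3
      have d1 : l'.1 ∣ l.1 := by
        have : l'.1 ∣ l.1 * l'.2 := ⟨l.2, e2.symm⟩
        exact hl'.2.1.dvd_of_dvd_mul_right this
      have d2 : l.1 ∣ l'.1 := by
        have : l.1 ∣ l'.1 * l.2 := ⟨l'.2, e2⟩
        exact hl.2.1.dvd_of_dvd_mul_right this
      have e4 : l'.1 = l.1 := Nat.dvd_antisymm d1 d2
      have e5 : l'.2 = l.2 := by
        rw [e4] at e2
        exact (Nat.eq_of_mul_eq_mul_left hl1 e2).symm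
      have hll : l' = l := Prod.ext e4 e5
      subst hll
      rw [Finset.mem_coe, Finset.mem_image]
      refine ⟨g, ?_, rfl⟩
      rw [GG, Finset.mem_filter, Finset.mem_Icc]
      exact ⟨⟨hg, (Nat.le_div_iff_mul_le (Nat.lt_of_lt_of_le Nat.zero_lt_one hl1)).2
        ((Nat.le_floor_iff hT0).2 hp.1)⟩, hp.2.1, hp.2.2⟩
    have h4 : (R2.ncard : ℝ) ≤ ((GG a b x T l).card : ℝ) := by
      have h5 := Set.ncard_le_ncard hsub (Finset.finite_toSet _)
      rw [Set.ncard_coe_finset] at h5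
      exact_mod_cast h5.trans Finset.card_image_le
    linarith

theorem RR_le (ha : 1 < a) (hb : 1 < b) : ∃ C : ℝ, 0 ≤ C ∧ ∀ x T : ℝ, 2 ≤ x → 0 ≤ T →
    ((RR a b x T).ncard : ℝ) ≤ C * T := by
  obtain ⟨C₂, hC₂0, hC₂⟩ := sum_LL ha hb
  refine ⟨C₂, hC₂0, fun x T hx hT0 => ?_⟩
  refine (RR_card ha hb hx hT0).2.trans ?_
  calc ∑ l ∈ FF ha hb T, ((GG a b x T l).card : ℝ)
      ≤ ∑ l ∈ FF ha hb T, T * (1 / l.1) := Finset.sum_le_sum fun l _ => GG_le_div hT0 l
    _ = T * ∑ l ∈ FF ha hb T, (1 : ℝ) / l.1 := by rw [Finset.mul_sum]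
    _ ≤ T * C₂ := mul_le_mul_of_nonneg_left (hC₂ _ fun l hl => mem_FF ha hb hl) hT0
    _ = C₂ * T := by ring

/-- sufficiency -/
theorem gen_suff (ha : 1 < a) (hb : 1 < b) {κ : ℝ} (hκ : 0 < κ) {T : ℝ → ℝ}
    (hT1 : ∀ᶠ x in atTop, 2 / log a * log x ≤ T x) (hT2 : ∀ x : ℝ, 2 ≤ x → T x ≤ x ^ κ)
    (hirr : Irrational (log a / log b) ∨ T =o[atTop] (fun x : ℝ => log x ^ 2))
    (hbad : ∀ δ : ℝ, 0 < δ → (Bad T (log a / log b) δ).Finite) :
    (fun x : ℝ => ((RR a b x (T x)).ncard : ℝ)) =o[atTop] (fun x : ℝ => log x ^ 2) := by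
  classical
  have hA : 0 < log a := log_pos ha
  rcases hirr with hirr | hTo
  swap
  · obtain ⟨C, hC0, hC⟩ := RR_le ha hb
    refine IsBigO.trans_isLittleO (g := T) ?_ hTo
    refine IsBigO.of_bound C ?_
    filter_upwards [eventually_ge_atTop (2 : ℝ), hT1] with x hx hx1
    have hlx : 0 < log x := log_pos (by linarith)
    have hT0 : 0 ≤ T x := le_trans (by positivity) hx1
    rw [Real.norm_eq_abs, Real.norm_eq_abs, abs_of_nonneg (Nat.cast_nonneg _), abs_of_nonneg hT0]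
    exact hC x (T x) hx hT0
  obtain ⟨C, hC0, hC⟩ := RR_single ha hb hκ
  rw [isLittleO_iff]
  intro δ hδ
  set δ' : ℝ := min (δ / 4) (δ / 4 * log a) with hδ'
  have hδ'0 : 0 < δ' := lt_min (by positivity) (by positivity)
  have hd1 : δ' ≤ δ / 4 := min_le_left _ _
  have hd2 : δ' / log a ≤ δ / 4 := by
    rw [div_le_iff₀ hA]
    exact min_le_right _ _
  obtain ⟨Q, hQ⟩ : ∃ Q : ℕ, ∀ l ∈ Bad T (log a / log b) δ', l.1 ≤ Q := by
    obtain ⟨Q, hQ⟩ := ((hbad δ' hδ'0).image Prod.fst).bddAbove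
    exact ⟨Q, fun l hl => hQ ⟨l, hl, rfl⟩⟩
  obtain ⟨C₃, hC₃0, hC₃⟩ := small_lines ha hb hirr Q
  set c := |log (2 / log b)| with hc
  have hc0 : 0 ≤ c := abs_nonneg _
  filter_upwards [eventually_ge_atTop (2 : ℝ), hT1,
    log_le_eps (C := C + C₃ + 1 / log a) (δ := δ / 4) (by positivity),
    const_le_eps (C := c / log a) (δ := δ / 4) (by positivity)] with x hx hxT hx1 hx2
  have hlx : 0 < log x := log_pos (by linarith)
  have hT0 : 0 ≤ T x := le_trans (by positivity) hxT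
  rw [Real.norm_eq_abs, Real.norm_eq_abs, abs_of_nonneg (Nat.cast_nonneg _),
    abs_of_nonneg (by positivity)]
  have p1 : 0 ≤ C₃ * log x := by positivity
  have p2 : 0 ≤ 1 / log a * log x := by positivity
  have p3 : 0 ≤ δ / 4 * log x ^ 2 := by positivity
  rcases hC x (T x) hx hT0 (hT2 x hx) with h1 | ⟨l, hl, h1⟩
  · nlinarith
  have hlL := mem_FF ha hb hl
  have hl1 : 1 ≤ l.1 := hlL.1
  have hl0 : (1 : ℝ) ≤ l.1 := by exact_mod_cast hl1
  have h2 : ((GG a b x (T x) l).card : ℝ) ≤ C₃ * log x + 1 / log a * log x + c / log a +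
      δ / 4 * log x ^ 2 := by
    have p4 : 0 ≤ c / log a := by positivity
    rcases Nat.lt_or_ge Q l.1 with h3 | h3
    · have h4 : l ∉ Bad T (log a / log b) δ' := fun h5 => by
        have := hQ l h5
        omega
      rcases lt_or_ge (T x) (δ' * l.1 * log x ^ 2) with h5 | h5
      · have h6 := GG_le_div (a := a) (b := b) (x := x) hT0 l
        have h7 : T x * (1 / l.1) ≤ δ' * log x ^ 2 := by
          rw [mul_one_div, div_le_iff₀ (by linarith)]
          linarith
        have h8 : δ' * log x ^ 2 ≤ δ / 4 * log x ^ 2 :=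
          mul_le_mul_of_nonneg_right hd1 (by positivity)
        linarith
      · have h6 : exp (-(δ' * l.1 * log x ^ 2)) ≤ |(l.1 : ℝ) * (log a / log b) - l.2| := by
          by_contra h7
          exact h4 ⟨hl1, x, hx, h5, not_le.1 h7⟩
        have h7 := GG_bound ha hb (T := T x) hx hl1 (exp_pos _) h6
        have hnn : 0 ≤ δ' * l.1 * log x ^ 2 := by positivity
        rw [Real.log_exp, abs_neg, abs_of_nonneg hnn, ← hc] at h7
        have h8 : (log x + c + δ' * l.1 * log x ^ 2) / (l.1 * log a) =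
            (1 / log a * log x + c / log a) * (1 / l.1) + δ' / log a * log x ^ 2 := by
          field_simp
        have h9 : (1 / log a * log x + c / log a) * (1 / (l.1 : ℝ)) ≤
            (1 / log a * log x + c / log a) * 1 := by
          apply mul_le_mul_of_nonneg_left _ (by positivity)
          rw [div_le_one (by linarith)]
          exact hl0
        have h10 : δ' / log a * log x ^ 2 ≤ δ / 4 * log x ^ 2 :=
          mul_le_mul_of_nonneg_right hd2 (by positivity)
        rw [h8] at h7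
        linarith
    · have h4 : ((GG a b x (T x) l).card : ℝ) ≤ C₃ * log x := by
        refine le_trans ?_ (hC₃ x (T x) hx hT0)
        exact Finset.single_le_sum (f := fun l => ((GG a b x (T x) l).card : ℝ))
          (fun _ _ => Nat.cast_nonneg _) (Finset.mem_filter.2 ⟨hl, h3⟩)
      linarith
  nlinarith

/-- necessity, rational case -/
theorem gen_nec1 (ha : 1 < a) (hb : 1 < b) {T : ℝ → ℝ}
    (hT1 : ∀ᶠ x in atTop, 2 / log a * log x ≤ T x)
    (h : (fun x : ℝ => ((RR a b x (T x)).ncard : ℝ)) =o[atTop] (fun x : ℝ => log x ^ 2)) :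
    Irrational (log a / log b) ∨ T =o[atTop] (fun x : ℝ => log x ^ 2) := by
  by_contra hcon
  push Not at hcon
  obtain ⟨hirr, hTo⟩ := hcon
  apply hTo
  have hA : 0 < log a := log_pos ha
  obtain ⟨q, p, hq, -, hqp⟩ := rational_line ha hb hirr
  have hq0 : (0 : ℝ) < q := by exact_mod_cast hq
  rw [isLittleO_iff]
  intro δ hδ
  rw [isLittleO_iff] at h
  filter_upwards [h (c := δ / q / 4) (by positivity), eventually_ge_atTop (2 : ℝ), hT1,
    log_le_eps (C := 2 / (q * log a)) (δ := δ / q / 4) (by positivity),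
    const_le_eps (C := 1) (δ := δ / q / 4) (by positivity)] with x hx1 hx hxT hx2 hx3
  have hlx : 0 < log x := log_pos (by linarith)
  have hT0 : 0 ≤ T x := le_trans (by positivity) hxT
  rw [Real.norm_eq_abs, Real.norm_eq_abs, abs_of_nonneg (Nat.cast_nonneg _),
    abs_of_nonneg (by positivity)] at hx1
  rw [Real.norm_eq_abs, Real.norm_eq_abs, abs_of_nonneg hT0, abs_of_nonneg (by positivity)]
  have h4 := RR_lower (a := a) (b := b) (x := x) (T := T x)
    (RR_card ha hb hx hT0).1 hq (p := p) (g₀ := ⌊2 / (q * log a) * log x⌋₊)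
    (G := ⌊T x / q⌋₊) (by
    intro g hg1 hg2
    refine ⟨?_, ?_, ?_⟩
    · have h5 := (Nat.le_floor_iff (by positivity)).1 hg2
      push_cast
      rw [le_div_iff₀ hq0] at h5
      exact h5
    · rw [hqp, sub_self, abs_zero]
      linarith
    · have h5 := (Nat.floor_lt (by positivity)).1 hg1
      rw [lt_pow_iff_log ha (by positivity), Real.log_pow]
      push_cast
      rw [div_lt_iff₀ hA]
      rw [div_mul_eq_mul_div, div_lt_iff₀ (by positivity)] at h5
      linarith)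
  have h6 : (⌊2 / (q * log a) * log x⌋₊ : ℝ) ≤ 2 / (q * log a) * log x :=
    Nat.floor_le (by positivity)
  have h7 : T x / q < (⌊T x / q⌋₊ : ℝ) + 1 := Nat.lt_floor_add_one _
  have h8 : T x / q ≤ δ / q * log x ^ 2 := by
    have : δ / q * log x ^ 2 = 4 * (δ / q / 4 * log x ^ 2) := by ring
    rw [this]
    have : 0 ≤ δ / q / 4 * log x ^ 2 := by positivity
    linarith
  rw [div_mul_eq_mul_div] at h8
  exact (div_le_div_iff_of_pos_right hq0).1 h8

end Pool.Agent.U714.NC
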