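import Pool.Agent.U714.NC.Gen

/-!
# Truncated counts of near-coincidences: necessity, and truncation at powers of `x`
-/

set_option autoImplicit false

namespace Pool.Agent.U714.NC

open Real Filter Set Asymptotics Topology
open Pool.Agent.H491R3.PE Pool.Agent.TH709.NC

variable {a b : ℝ}

/-- multiples of a very good approximation are near-coincidences -/
theorem close (ha : 1 < a) (hb : 1 < b) {ε L : ℝ} (hε : 0 < ε) (hL0 : 0 < L) {q p g : ℕ}
    (hq : 1 ≤ q) (hgL : (g : ℝ) ≤ L ^ 2) (hgA : (g : ℝ) * log a ≤ ε / 2 * L ^ 2)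
    (hq4 : 4 * log b ≤ ε * q)
    (hl2 : |(q : ℝ) * (log a / log b) - p| < exp (-(ε * q * L ^ 2))) :
    |a ^ (g * q) - b ^ (g * p)| ≤ 1 := by
  have hA : 0 < log a := log_pos ha
  have hB : 0 < log b := log_pos hb
  have hq0 : (1 : ℝ) ≤ q := by exact_mod_cast hq
  have hqL : 0 < (q : ℝ) * L ^ 2 := by positivity
  rw [mul_assoc] at hl2
  set y : ℝ := (g : ℝ) * p * log b - g * q * log a with hy
  have hyabs : |y| ≤ log b * L ^ 2 * exp (-(ε * (q * L ^ 2))) := by
    have e : y = -(g * log b * ((q : ℝ) * (log a / log b) - p)) := by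
      rw [hy]
      field_simp
      ring
    rw [e, abs_neg, abs_mul, abs_of_nonneg (by positivity)]
    calc (g : ℝ) * log b * |(q : ℝ) * (log a / log b) - p|
        ≤ L ^ 2 * log b * exp (-(ε * (q * L ^ 2))) := by
          apply mul_le_mul _ hl2.le (abs_nonneg _) (by positivity)
          exact mul_le_mul_of_nonneg_right hgL hB.le
      _ = _ := by ring
  have hexp : ∀ u : ℝ, 0 < u → exp (-u) ≤ 1 / u := by
    intro u hu
    rw [Real.exp_neg, ← one_div]
    apply one_div_le_one_div_of_le hu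
    have := Real.add_one_le_exp u
    linarith
  have hy1 : |y| ≤ 1 := by
    refine hyabs.trans ?_
    calc log b * L ^ 2 * exp (-(ε * (q * L ^ 2)))
        ≤ log b * L ^ 2 * (1 / (ε * (q * L ^ 2))) :=
          mul_le_mul_of_nonneg_left (hexp _ (by positivity)) (by positivity)
      _ = log b / (ε * q) := by
          field_simp
      _ ≤ 1 := by
          rw [div_le_one (by positivity)]
          linarith
  have hpow : b ^ (g * p) = a ^ (g * q) * exp y := by
    rw [← Real.exp_log (by positivity : 0 < b ^ (g * p)),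
      ← Real.exp_log (by positivity : 0 < a ^ (g * q)), ← Real.exp_add, Real.log_pow,
      Real.log_pow]
    congr 1
    rw [hy]
    push_cast
    ring
  have hag : a ^ (g * q) ≤ exp (ε * (q * L ^ 2) / 2) := by
    rw [← Real.exp_log (by positivity : 0 < a ^ (g * q)), Real.log_pow]
    apply Real.exp_le_exp.2
    push_cast
    calc (g : ℝ) * q * log a = (g * log a) * q := by ring
      _ ≤ ε / 2 * L ^ 2 * q := mul_le_mul_of_nonneg_right hgA (by linarith)
      _ = _ := by ring
  have e : a ^ (g * q) - b ^ (g * p) = -(a ^ (g * q) * (exp y - 1)) := by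
    rw [hpow]
    ring
  rw [e, abs_neg, abs_mul, abs_of_pos (by positivity : 0 < a ^ (g * q))]
  have h5 := Real.abs_exp_sub_one_le hy1
  have h6 : 2 * |y| ≤ 2 * (log b * L ^ 2 * exp (-(ε * (q * L ^ 2)))) := by linarith
  calc a ^ (g * q) * |exp y - 1|
      ≤ exp (ε * (q * L ^ 2) / 2) * (2 * (log b * L ^ 2 * exp (-(ε * (q * L ^ 2))))) := by
        apply mul_le_mul hag (h5.trans h6) (abs_nonneg _) (exp_pos _).le
    _ = 2 * log b * L ^ 2 * exp (-(ε * (q * L ^ 2) / 2)) := by
        have : exp (-(ε * (q * L ^ 2) / 2)) =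
            exp (ε * (q * L ^ 2) / 2) * exp (-(ε * (q * L ^ 2))) := by
          rw [← Real.exp_add]
          congr 1
          ring
        rw [this]
        ring
    _ ≤ 2 * log b * L ^ 2 * (1 / (ε * (q * L ^ 2) / 2)) :=
        mul_le_mul_of_nonneg_left (hexp _ (by positivity)) (by positivity)
    _ = 4 * log b / (ε * q) := by
        field_simp
        ring
    _ ≤ 1 := by
        rw [div_le_one (by positivity)]
        linarith

/-- an infinite set of approximations has members with large first coordinate -/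
theorem exists_large {S : Set (ℕ × ℕ)} {α : ℝ} (hS : S.Infinite)
    (hS1 : ∀ l ∈ S, |(l.1 : ℝ) * α - l.2| < 1) (N₀ : ℕ) : ∃ l ∈ S, N₀ ≤ l.1 := by
  by_contra h4
  push Not at h4
  apply hS
  have hfin : (⋃ q ∈ Finset.range N₀, (fun p : ℕ => (q, p)) '' (Finset.range
      (⌊(q : ℝ) * α + 1⌋₊ + 1) : Set ℕ)).Finite := by
    apply Set.Finite.biUnion (Finset.finite_toSet _)
    intro q _
    exact (Finset.finite_toSet _).image _
  refine hfin.subset ?_
  intro l hl
  have h5 := h4 l hl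
  rw [Set.mem_iUnion₂]
  refine ⟨l.1, Finset.mem_range.2 h5, l.2, ?_, rfl⟩
  rw [Finset.mem_coe, Finset.mem_range, Nat.lt_succ_iff]
  apply Nat.le_floor
  have h8 := abs_lt.1 (hS1 l hl)
  linarith [h8.1]

/-- necessity, approximations -/
theorem gen_nec2 (ha : 1 < a) (hb : 1 < b) {κ : ℝ} (hκ : 0 < κ) {T : ℝ → ℝ}
    (hT1 : ∀ᶠ x in atTop, 2 / log a * log x ≤ T x) (hT2 : ∀ x : ℝ, 2 ≤ x → T x ≤ x ^ κ)
    (h : (fun x : ℝ => ((RR a b x (T x)).ncard : ℝ)) =o[atTop] (fun x : ℝ => log x ^ 2)) :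
    ∀ δ : ℝ, 0 < δ → (Bad T (log a / log b) δ).Finite := by
  intro δ hδ
  by_contra hinf
  have hA : 0 < log a := log_pos ha
  have hB : 0 < log b := log_pos hb
  have hl2 : 0 < log 2 := log_pos (by norm_num)
  set μ : ℝ := min 1 (min δ (δ / (2 * log a))) with hμ
  have hμ0 : 0 < μ := lt_min one_pos (lt_min hδ (by positivity))
  have hμ1 : μ ≤ 1 := min_le_left _ _
  have hμδ : μ ≤ δ := (min_le_right _ _).trans (min_le_left _ _)
  have hμ2 : μ * log a ≤ δ / 2 := by
    have h1 : μ ≤ δ / (2 * log a) := (min_le_right _ _).trans (min_le_right _ _)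
    calc μ * log a ≤ δ / (2 * log a) * log a := mul_le_mul_of_nonneg_right h1 hA.le
      _ = δ / 2 := by field_simp
  rw [isLittleO_iff] at h
  have hev := (h (c := μ / 4) (by positivity)).and ((log_le_eps (C := 2 / log a) (δ := μ / 4)
    (by positivity)).and ((const_le_eps (C := 2) (δ := μ / 4) (by positivity)).and
      ((eventually_ge_atTop (2 : ℝ)).and hT1)))
  obtain ⟨X₀, hX₀⟩ := Filter.eventually_atTop.1 hev
  obtain ⟨l, hl, hlN⟩ := exists_large (α := log a / log b) hinf (by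
    intro l hl
    obtain ⟨-, x, hx, -, h5⟩ := hl
    refine h5.trans_le ?_
    rw [Real.exp_le_one_iff]
    have : 0 ≤ δ * l.1 * log x ^ 2 := by positivity
    linarith) (max (⌈(max X₀ 2) ^ κ / (δ * log 2 ^ 2)⌉₊ + 1) ⌈4 * log b / δ⌉₊)
  obtain ⟨hl1, x, hx, hTx, hlx2⟩ := hl
  have hq0 : (1 : ℝ) ≤ l.1 := by exact_mod_cast hl1
  have hlx : log 2 ≤ log x := Real.log_le_log (by norm_num) hx
  have hL0 : 0 < log x := by linarith
  have hq4 : 4 * log b ≤ δ * l.1 := by
    have h1 : 4 * log b / δ ≤ l.1 :=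
      (Nat.le_ceil _).trans (by exact_mod_cast (le_max_right _ _).trans hlN)
    rw [div_le_iff₀ hδ] at h1
    linarith
  have hxX : X₀ ≤ x := by
    by_contra hcon
    have hcon' : x ≤ max X₀ 2 := (not_le.1 hcon).le.trans (le_max_left _ _)
    have h1 : T x ≤ (max X₀ 2) ^ κ :=
      (hT2 x hx).trans (Real.rpow_le_rpow (by linarith) hcon' hκ.le)
    have h2 : δ * l.1 * log 2 ^ 2 ≤ δ * l.1 * log x ^ 2 := by
      apply mul_le_mul_of_nonneg_left _ (by positivity)
      exact pow_le_pow_left₀ hl2.le hlx 2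
    have h3 : (max X₀ 2) ^ κ / (δ * log 2 ^ 2) < l.1 := by
      have h4 : (⌈(max X₀ 2) ^ κ / (δ * log 2 ^ 2)⌉₊ : ℝ) + 1 ≤ l.1 := by
        exact_mod_cast (le_max_left _ _).trans hlN
      have h5 := Nat.le_ceil ((max X₀ 2) ^ κ / (δ * log 2 ^ 2))
      linarith
    rw [div_lt_iff₀ (by positivity)] at h3
    nlinarith
  obtain ⟨e1, e2, e3, e4, e5⟩ := hX₀ x hxX
  have hT0 : 0 ≤ T x := le_trans (by positivity) e5
  rw [Real.norm_eq_abs, Real.norm_eq_abs, abs_of_nonneg (Nat.cast_nonneg _),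
    abs_of_nonneg (by positivity)] at e1
  have h4 := RR_lower (a := a) (b := b) (x := x) (T := T x) (RR_card ha hb hx hT0).1 hl1
    (p := l.2) (g₀ := ⌊2 / (l.1 * log a) * log x⌋₊) (G := ⌊μ * log x ^ 2⌋₊) (by
    intro g hg1 hg2
    have hg2' : (g : ℝ) ≤ μ * log x ^ 2 := (Nat.le_floor_iff (by positivity)).1 hg2
    have hsq : 0 ≤ log x ^ 2 := by positivity
    refine ⟨?_, ?_, ?_⟩
    · push_cast
      refine le_trans ?_ hTx
      have h6 : μ * log x ^ 2 ≤ δ * log x ^ 2 := mul_le_mul_of_nonneg_right hμδ hsq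
      calc (g : ℝ) * l.1 ≤ δ * log x ^ 2 * l.1 :=
            mul_le_mul_of_nonneg_right (hg2'.trans h6) (by linarith)
        _ = _ := by ring
    · refine le_trans (close ha hb hδ hL0 hl1 ?_ ?_ hq4 hlx2) (by linarith)
      · refine hg2'.trans ?_
        nlinarith
      · calc (g : ℝ) * log a ≤ μ * log x ^ 2 * log a := mul_le_mul_of_nonneg_right hg2' hA.le
          _ = μ * log a * log x ^ 2 := by ring
          _ ≤ _ := mul_le_mul_of_nonneg_right hμ2 hsq
    · have h5 := (Nat.floor_lt (by positivity)).1 hg1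
      rw [lt_pow_iff_log ha (by positivity), Real.log_pow]
      push_cast
      rw [div_lt_iff₀ hA]
      rw [div_mul_eq_mul_div, div_lt_iff₀ (by positivity)] at h5
      linarith)
  have h6 : (⌊2 / (l.1 * log a) * log x⌋₊ : ℝ) ≤ 2 / (l.1 * log a) * log x :=
    Nat.floor_le (by positivity)
  have h6' : 2 / (l.1 * log a) * log x ≤ 2 / log a * log x := by
    apply mul_le_mul_of_nonneg_right _ hL0.le
    apply div_le_div_of_nonneg_left (by norm_num) hA
    nlinarith
  have h7 : μ * log x ^ 2 < (⌊μ * log x ^ 2⌋₊ : ℝ) + 1 := Nat.lt_floor_add_one _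
  have h8 : 0 < μ * log x ^ 2 := by positivity
  nlinarith

end Pool.Agent.U714.NC
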