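import Pool.Agent.U714.NC.Thm

/-!
# Truncated counts of near-coincidences: truncation at powers of the logarithm
-/

set_option autoImplicit false

namespace Pool.Agent.U714.NC

open Real Filter Set Asymptotics Topology
open Pool.Agent.H491R3.PE Pool.Agent.TH709.NC

variable {a b : ℝ}

/-- the pairs `(q, p)` with `|q α - p| < exp (-ε q ^ s)` -/
def Good (α s ε : ℝ) : Set (ℕ × ℕ) :=
  {l | 1 ≤ l.1 ∧ |(l.1 : ℝ) * α - l.2| < exp (-(ε * (l.1 : ℝ) ^ s))}

theorem irrational_of_finite (ha : 1 < a) (hb : 1 < b) {s : ℝ}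
    (h : (Good (log a / log b) s 1).Finite) : Irrational (log a / log b) := by
  by_contra hirr
  obtain ⟨q, p, hq, hqp, -⟩ := rational_line ha hb hirr
  refine h.not_infinite (Set.infinite_of_injective_forall_mem
    (f := fun k : ℕ => ((k + 1) * q, (k + 1) * p)) ?_ ?_)
  · intro k l hkl
    have := congrArg Prod.fst hkl
    have := Nat.eq_of_mul_eq_mul_right hq this
    omega
  · intro k
    refine ⟨Nat.mul_pos (Nat.succ_pos k) hq, ?_⟩
    have e : (((k + 1) * q : ℕ) : ℝ) * (log a / log b) - (((k + 1) * p : ℕ) : ℝ) = 0 := by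
      push_cast
      rw [mul_assoc, hqp]
      ring
    show |(((k + 1) * q : ℕ) : ℝ) * (log a / log b) - (((k + 1) * p : ℕ) : ℝ)| < _
    rw [e, abs_zero]
    exact exp_pos _

theorem small_of_good (ha : 1 < a) (hb : 1 < b) {k : ℝ} (hk : 2 < k)
    (h : ∀ ε : ℝ, 0 < ε → (Good (log a / log b) (k / (k - 2)) ε).Finite) :
    (fun x : ℝ => ((RR a b x (log x ^ k)).ncard : ℝ)) =o[atTop] (fun x : ℝ => log x ^ 2) := by
  classical
  have hirr := irrational_of_finite ha hb (h 1 one_pos)
  have hA : 0 < log a := log_pos ha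
  have hB : 0 < log b := log_pos hb
  have hk2 : 0 < k - 2 := by linarith
  set t : ℝ := 2 / (k - 2) with ht
  have ht0 : 0 < t := by positivity
  set s : ℝ := k / (k - 2) with hs
  have hst : s = 1 + t := by
    rw [hs, ht]
    field_simp
    ring
  set r : ℝ := (1 / 2 : ℝ) ^ t with hr
  have hr1 : r < 1 := Real.rpow_lt_one (by norm_num) (by norm_num) ht0
  have h1r : 0 < 1 - r := by linarith
  obtain ⟨n₀, hn₀, hsum⟩ := sums ha hb
  obtain ⟨C₀, hC₀0, hC₀⟩ := sum_LL ha hb
  rw [isLittleO_iff]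
  intro δ hδ
  set δ₁ : ℝ := δ / 8 with hδ₁
  have hδ₁0 : 0 < δ₁ := by positivity
  set ε : ℝ := δ / 4 * log a * (1 - r) * δ₁ ^ t with hε
  have hε0 : 0 < ε := by
    have := Real.rpow_pos_of_pos hδ₁0 t
    positivity
  obtain ⟨Q, hQ⟩ : ∃ Q : ℕ, ∀ l ∈ Good (log a / log b) s ε, l.1 ≤ Q := by
    obtain ⟨Q, hQ⟩ := ((h ε hε0).image Prod.fst).bddAbove
    exact ⟨Q, fun l hl => hQ ⟨l, hl, rfl⟩⟩
  set Q' := max Q n₀ with hQ'
  obtain ⟨C, hC0, hC⟩ := small_lines ha hb hirr Q'
  set c := |log (2 / log b)| with hc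
  have hc0 : 0 ≤ c := abs_nonneg _
  filter_upwards [eventually_ge_atTop (2 : ℝ), log_le_eps (C := C + C₀ / log a) (δ := δ / 4) (by positivity),
    const_le_eps (C := c / log a * C₀) (δ := δ / 4) (by positivity)] with x hx hx1 hx2
  have hlx : 0 < log x := log_pos (by linarith)
  set L := log x with hL
  have hT0 : 0 ≤ L ^ k := by positivity
  set Y : ℝ := L ^ (k - 2) / δ₁ with hY
  have hLk2 : 0 < L ^ (k - 2) := Real.rpow_pos_of_pos hlx _
  have hY0 : 0 < Y := by positivity
  rw [Real.norm_eq_abs, Real.norm_eq_abs, abs_of_nonneg (Nat.cast_nonneg _),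
    abs_of_nonneg (by positivity)]
  refine (RR_card ha hb hx hT0).2.trans ?_
  rw [← Finset.sum_filter_add_sum_filter_not (FF ha hb (L ^ k)) (fun l => l.1 ≤ Q')]
  have h1 := hC x (L ^ k) hx hT0
  set F1 := (FF ha hb (L ^ k)).filter (fun l => ¬ l.1 ≤ Q') with hF1
  have hF1mem : ∀ l ∈ F1, l ∈ LL a b ∧ Q < l.1 ∧ n₀ ≤ l.1 ∧ 1 ≤ l.1 := by
    intro l hl
    rw [hF1, Finset.mem_filter] at hl
    have h2 := le_max_right Q n₀
    have h3 := le_max_left Q n₀
    exact ⟨mem_FF ha hb hl.1, by omega, by omega, by omega⟩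
  have h2 : ∑ l ∈ F1, ((GG a b x (L ^ k) l).card : ℝ) =
      ∑ l ∈ F1.filter (fun l => (l.1 : ℝ) ≤ Y), ((GG a b x (L ^ k) l).card : ℝ) +
      ∑ l ∈ F1.filter (fun l => ¬ (l.1 : ℝ) ≤ Y), ((GG a b x (L ^ k) l).card : ℝ) :=
    (Finset.sum_filter_add_sum_filter_not F1 _ _).symm
  -- the lines in the middle
  have h3 : ∑ l ∈ F1.filter (fun l => (l.1 : ℝ) ≤ Y), ((GG a b x (L ^ k) l).card : ℝ) ≤
      (L + c) / log a * C₀ + δ / 4 * L ^ 2 := by
    have hb1 : ∀ l ∈ F1.filter (fun l => (l.1 : ℝ) ≤ Y), ((GG a b x (L ^ k) l).card : ℝ) ≤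
        (L + c) / log a * (1 / l.1) + ε / log a * (l.1 : ℝ) ^ t := by
      intro l hl
      rw [Finset.mem_filter] at hl
      obtain ⟨m1, m2, m3, m4⟩ := hF1mem l hl.1
      have hl0 : (0 : ℝ) < l.1 := by exact_mod_cast m4
      have h4 : exp (-(ε * (l.1 : ℝ) ^ s)) ≤ |(l.1 : ℝ) * (log a / log b) - l.2| := by
        by_contra h5
        have := hQ l ⟨m4, not_le.1 h5⟩
        omega
      refine (GG_bound ha hb hx m4 (exp_pos _) h4).trans (le_of_eq ?_)
      have hls : 0 ≤ ε * (l.1 : ℝ) ^ s := by positivity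
      rw [Real.log_exp, abs_neg, abs_of_nonneg hls, ← hc, ← hL, hst, Real.rpow_add hl0,
        Real.rpow_one]
      field_simp
    refine (Finset.sum_le_sum hb1).trans ?_
    rw [Finset.sum_add_distrib, ← Finset.mul_sum, ← Finset.mul_sum]
    apply add_le_add
    · apply mul_le_mul_of_nonneg_left _ (by positivity)
      apply hC₀
      intro l hl
      exact (hF1mem l (Finset.mem_filter.1 hl).1).1
    · have h5 := (hsum (F1.filter (fun l => (l.1 : ℝ) ≤ Y)) (fun l hl =>
        ⟨(hF1mem l (Finset.mem_filter.1 hl).1).1, (hF1mem l (Finset.mem_filter.1 hl).1).2.2.1⟩)).2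
        t Y ht0 hY0.le (fun l hl => (Finset.mem_filter.1 hl).2)
      have h6 : Y ^ t = L ^ 2 / δ₁ ^ t := by
        rw [hY, Real.div_rpow hLk2.le hδ₁0.le, ← Real.rpow_mul hlx.le]
        have e : (k - 2) * t = 2 := by
          rw [ht]
          field_simp
        rw [e, Real.rpow_two]
      rw [h6, ← hr] at h5
      have hδt : 0 < δ₁ ^ t := Real.rpow_pos_of_pos hδ₁0 t
      calc ε / log a * ∑ l ∈ F1.filter (fun l => (l.1 : ℝ) ≤ Y), (l.1 : ℝ) ^ t
          ≤ ε / log a * (L ^ 2 / δ₁ ^ t / (1 - r)) := mul_le_mul_of_nonneg_left h5 (by positivity)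
        _ = δ / 4 * L ^ 2 := by
            rw [hε]
            field_simp
  -- the far lines
  have h4 : ∑ l ∈ F1.filter (fun l => ¬ (l.1 : ℝ) ≤ Y), ((GG a b x (L ^ k) l).card : ℝ) ≤
      δ / 4 * L ^ 2 := by
    have h5 := (hsum (F1.filter (fun l => ¬ (l.1 : ℝ) ≤ Y)) (fun l hl =>
        ⟨(hF1mem l (Finset.mem_filter.1 hl).1).1, (hF1mem l (Finset.mem_filter.1 hl).1).2.2.1⟩)).1
        ⌈Y⌉₊ (Nat.one_le_iff_ne_zero.2 (Nat.ceil_pos.2 hY0).ne') (by
          intro l hl
          rw [Finset.mem_filter] at hl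
          exact Nat.ceil_le.2 (not_le.1 hl.2).le)
    have h6 : (2 : ℝ) / ⌈Y⌉₊ ≤ 2 / Y :=
      div_le_div_of_nonneg_left (by norm_num) hY0 (Nat.le_ceil _)
    calc _ ≤ ∑ l ∈ F1.filter (fun l => ¬ (l.1 : ℝ) ≤ Y), L ^ k * (1 / l.1) :=
          Finset.sum_le_sum fun l _ => GG_le_div hT0 l
      _ = L ^ k * ∑ l ∈ F1.filter (fun l => ¬ (l.1 : ℝ) ≤ Y), (1 : ℝ) / l.1 := by
          rw [Finset.mul_sum]
      _ ≤ L ^ k * (2 / Y) := mul_le_mul_of_nonneg_left (h5.trans h6) hT0
      _ = δ / 4 * L ^ 2 := by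
          have e : L ^ k = L ^ (k - 2) * L ^ 2 := by
            rw [← Real.rpow_two, ← Real.rpow_add hlx]
            congr 1
            ring
          rw [hY, e, hδ₁]
          field_simp
          ring
  rw [h2]
  have h7 : (L + c) / log a * C₀ = C₀ / log a * L + c / log a * C₀ := by ring
  nlinarith

theorem good_of_small (ha : 1 < a) (hb : 1 < b) {k : ℝ} (hk : 2 < k)
    (h : (fun x : ℝ => ((RR a b x (log x ^ k)).ncard : ℝ)) =o[atTop] (fun x : ℝ => log x ^ 2)) :
    ∀ ε : ℝ, 0 < ε → (Good (log a / log b) (k / (k - 2)) ε).Finite := by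
  intro ε hε
  by_contra hinf
  have hA : 0 < log a := log_pos ha
  have hB : 0 < log b := log_pos hb
  have hk2 : 0 < k - 2 := by linarith
  set t : ℝ := 2 / (k - 2) with ht
  have ht0 : 0 < t := by positivity
  set s : ℝ := k / (k - 2) with hs
  have hst : s = 1 + t := by
    rw [hs, ht]
    field_simp
    ring
  set κ : ℝ := min 1 (ε / (2 * log a)) with hκ
  have hκ0 : 0 < κ := lt_min one_pos (by positivity)
  have hκ1 : κ ≤ 1 := min_le_left _ _
  have hκ2 : κ * log a ≤ ε / 2 := by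
    have h1 : κ ≤ ε / (2 * log a) := min_le_right _ _
    calc κ * log a ≤ ε / (2 * log a) * log a := mul_le_mul_of_nonneg_right h1 hA.le
      _ = ε / 2 := by field_simp
  rw [isLittleO_iff] at h
  have h1 := h (c := κ / 4) (by positivity)
  have h2 := log_le_eps (C := 2 / log a) (δ := κ / 4) (by positivity)
  have h3 := const_le_eps (C := 2) (δ := κ / 4) (by positivity)
  have hev : ∀ᶠ x : ℝ in atTop, (‖((RR a b x (log x ^ k)).ncard : ℝ)‖ ≤ κ / 4 * ‖log x ^ 2‖) ∧
      2 / log a * log x ≤ κ / 4 * log x ^ 2 ∧ 2 ≤ κ / 4 * log x ^ 2 ∧ 2 ≤ x :=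
    h1.and (h2.and (h3.and (eventually_ge_atTop (2 : ℝ))))
  -- transfer to q
  have htend : Tendsto (fun q : ℕ => exp ((q : ℝ) ^ (1 / (k - 2)))) atTop atTop :=
    Real.tendsto_exp_atTop.comp
      ((tendsto_rpow_atTop (by positivity)).comp tendsto_natCast_atTop_atTop)
  have hq := htend.eventually hev
  obtain ⟨N₀, hN₀⟩ := (hq.and (eventually_ge_atTop (max 1 ⌈4 * log b / ε⌉₊))).exists_forall_of_atTop
  -- a member with large first coordinate
  obtain ⟨l, hl, hlN⟩ : ∃ l ∈ Good (log a / log b) s ε, N₀ ≤ l.1 := by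
    by_contra h4
    push Not at h4
    apply hinf
    have hfin : (⋃ q ∈ Finset.range N₀, (fun p : ℕ => (q, p)) '' (Finset.range
        (⌊(q : ℝ) * (log a / log b) + 1⌋₊ + 1) : Set ℕ)).Finite := by
      apply Set.Finite.biUnion (Finset.finite_toSet _)
      intro q _
      exact (Finset.finite_toSet _).image _
    refine hfin.subset ?_
    intro l hl
    have h5 := h4 l hl
    rw [Set.mem_iUnion₂]
    refine ⟨l.1, Finset.mem_range.2 h5, l.2, ?_, rfl⟩
    rw [Finset.mem_coe, Finset.mem_range, Nat.lt_succ_iff]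
    apply Nat.le_floor
    have h6 := hl.2
    have h7 : exp (-(ε * (l.1 : ℝ) ^ s)) ≤ 1 := by
      rw [Real.exp_le_one_iff]
      have : 0 ≤ ε * (l.1 : ℝ) ^ s := by positivity
      linarith
    have h8 := abs_lt.1 (h6.trans_le h7)
    linarith [h8.1]
  obtain ⟨⟨e1, e2, e3, e4⟩, e5⟩ := hN₀ l.1 hlN
  obtain ⟨hl1, hl2⟩ := hl
  have hq0 : (1 : ℝ) ≤ l.1 := by exact_mod_cast hl1
  have hq4 : 4 * log b / ε ≤ l.1 :=
    (Nat.le_ceil _).trans (by exact_mod_cast (le_max_right _ _).trans e5)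
  set x : ℝ := exp ((l.1 : ℝ) ^ (1 / (k - 2))) with hx
  set L := log x with hL
  have hLq : L = (l.1 : ℝ) ^ (1 / (k - 2)) := by rw [hL, hx, Real.log_exp]
  have hL1 : 1 ≤ L := by
    rw [hLq]
    exact Real.one_le_rpow hq0 (by positivity)
  have hL0 : 0 < L := by linarith
  have hLk : (L : ℝ) ^ k = l.1 * L ^ 2 := by
    have e : L ^ k = L ^ (k - 2) * L ^ 2 := by
      rw [← Real.rpow_two, ← Real.rpow_add hL0]
      congr 1
      ring
    rw [e]
    congr 1
    rw [hLq, ← Real.rpow_mul (by positivity), one_div, inv_mul_cancel₀ hk2.ne', Real.rpow_one]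
  have hqs : (l.1 : ℝ) ^ s = l.1 * L ^ 2 := by
    rw [hst, Real.rpow_add (by linarith), Real.rpow_one]
    congr 1
    rw [hLq, ← Real.rpow_two, ← Real.rpow_mul (by positivity)]
    congr 1
    rw [ht]
    ring
  rw [hqs] at hl2
  have hT0 : 0 ≤ L ^ k := by positivity
  have hfin := (RR_card ha hb e4 hT0).1
  rw [Real.norm_eq_abs, Real.norm_eq_abs, abs_of_nonneg (Nat.cast_nonneg _),
    abs_of_nonneg (by positivity)] at e1
  have hqL : 0 < (l.1 : ℝ) * L ^ 2 := by positivity
  have h4 := RR_lower (a := a) (b := b) (x := x) (T := L ^ k) hfin hl1 (p := l.2)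
    (g₀ := ⌊2 / (l.1 * log a) * L⌋₊) (G := ⌊κ * L ^ 2⌋₊) (by
    intro g hg1 hg2
    have hg2' : (g : ℝ) ≤ κ * L ^ 2 := (Nat.le_floor_iff (by positivity)).1 hg2
    have hg0 : (0 : ℝ) ≤ g := Nat.cast_nonneg _
    have hgL : (g : ℝ) ≤ L ^ 2 := hg2'.trans (by nlinarith [sq_nonneg L])
    refine ⟨?_, ?_, ?_⟩
    · push_cast
      rw [hLk]
      calc (g : ℝ) * l.1 ≤ L ^ 2 * l.1 := mul_le_mul_of_nonneg_right hgL (by linarith)
        _ = l.1 * L ^ 2 := by ring
    · -- closeness
      set y : ℝ := (g : ℝ) * l.2 * log b - g * l.1 * log a with hy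
      have hyabs : |y| ≤ log b * L ^ 2 * exp (-(ε * (l.1 * L ^ 2))) := by
        have e : y = -(g * log b * ((l.1 : ℝ) * (log a / log b) - l.2)) := by
          rw [hy]
          field_simp
          ring
        rw [e, abs_neg, abs_mul, abs_of_nonneg (by positivity)]
        calc (g : ℝ) * log b * |(l.1 : ℝ) * (log a / log b) - l.2|
            ≤ L ^ 2 * log b * exp (-(ε * (l.1 * L ^ 2))) := by
              apply mul_le_mul _ hl2.le (abs_nonneg _) (by positivity)
              exact mul_le_mul_of_nonneg_right hgL hB.le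
          _ = _ := by ring
      have hexp : ∀ u : ℝ, 0 < u → exp (-u) ≤ 1 / u := by
        intro u hu
        rw [Real.exp_neg, ← one_div]
        apply one_div_le_one_div_of_le hu
        have := Real.add_one_le_exp u
        linarith
      have hq4' : 4 * log b ≤ ε * l.1 := by
        rw [div_le_iff₀ hε] at hq4
        linarith
      have hy1 : |y| ≤ 1 := by
        refine hyabs.trans ?_
        calc log b * L ^ 2 * exp (-(ε * (l.1 * L ^ 2)))
            ≤ log b * L ^ 2 * (1 / (ε * (l.1 * L ^ 2))) :=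
              mul_le_mul_of_nonneg_left (hexp _ (by positivity)) (by positivity)
          _ = log b / (ε * l.1) := by
              field_simp
          _ ≤ 1 := by
              rw [div_le_one (by positivity)]
              linarith
      have hpow : b ^ (g * l.2) = a ^ (g * l.1) * exp y := by
        rw [← Real.exp_log (by positivity : 0 < b ^ (g * l.2)),
          ← Real.exp_log (by positivity : 0 < a ^ (g * l.1)), ← Real.exp_add, Real.log_pow,
          Real.log_pow]
        congr 1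
        rw [hy]
        push_cast
        ring
      have hag : a ^ (g * l.1) ≤ exp (ε * (l.1 * L ^ 2) / 2) := by
        rw [← Real.exp_log (by positivity : 0 < a ^ (g * l.1)), Real.log_pow]
        apply Real.exp_le_exp.2
        push_cast
        calc (g : ℝ) * l.1 * log a ≤ κ * L ^ 2 * l.1 * log a := by
              apply mul_le_mul_of_nonneg_right _ hA.le
              exact mul_le_mul_of_nonneg_right hg2' (by linarith)
          _ = (κ * log a) * (l.1 * L ^ 2) := by ring
          _ ≤ ε / 2 * (l.1 * L ^ 2) := mul_le_mul_of_nonneg_right hκ2 hqL.le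
          _ = _ := by ring
      have e : a ^ (g * l.1) - b ^ (g * l.2) = -(a ^ (g * l.1) * (exp y - 1)) := by
        rw [hpow]
        ring
      rw [e, abs_neg, abs_mul, abs_of_pos (by positivity : 0 < a ^ (g * l.1))]
      have h5 := Real.abs_exp_sub_one_le hy1
      have h6 : 2 * |y| ≤ 2 * (log b * L ^ 2 * exp (-(ε * (l.1 * L ^ 2)))) := by linarith
      calc a ^ (g * l.1) * |exp y - 1|
          ≤ exp (ε * (l.1 * L ^ 2) / 2) * (2 * (log b * L ^ 2 * exp (-(ε * (l.1 * L ^ 2))))) := by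
            apply mul_le_mul hag (h5.trans h6) (abs_nonneg _) (exp_pos _).le
        _ = 2 * log b * L ^ 2 * exp (-(ε * (l.1 * L ^ 2) / 2)) := by
            have : exp (-(ε * (l.1 * L ^ 2) / 2)) =
                exp (ε * (l.1 * L ^ 2) / 2) * exp (-(ε * (l.1 * L ^ 2))) := by
              rw [← Real.exp_add]
              congr 1
              ring
            rw [this]
            ring
        _ ≤ 2 * log b * L ^ 2 * (1 / (ε * (l.1 * L ^ 2) / 2)) :=
            mul_le_mul_of_nonneg_left (hexp _ (by positivity)) (by positivity)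
        _ = 4 * log b / (ε * l.1) := by
            field_simp
            ring
        _ ≤ 1 := by
            rw [div_le_one (by positivity)]
            linarith
        _ ≤ x := by linarith
    · have h5 := (Nat.floor_lt (by positivity)).1 hg1
      rw [lt_pow_iff_log ha (by positivity), Real.log_pow]
      push_cast
      rw [div_lt_iff₀ hA]
      rw [div_mul_eq_mul_div, div_lt_iff₀ (by positivity)] at h5
      rw [← hL]
      linarith)
  have h6 : (⌊2 / (l.1 * log a) * L⌋₊ : ℝ) ≤ 2 / (l.1 * log a) * L :=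
    Nat.floor_le (by positivity)
  have h6' : 2 / (l.1 * log a) * L ≤ 2 / log a * L := by
    apply mul_le_mul_of_nonneg_right _ hL0.le
    apply div_le_div_of_nonneg_left (by norm_num) hA
    nlinarith
  have h7 : κ * L ^ 2 < (⌊κ * L ^ 2⌋₊ : ℝ) + 1 := Nat.lt_floor_add_one _
  have h8 : 0 < κ * L ^ 2 := by positivity
  nlinarith

end Pool.Agent.U714.NC
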