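import Pool.Agent.U714.NC.Gen2

/-!
# Truncated counts of near-coincidences: truncation at powers of `x`
-/

set_option autoImplicit false

namespace Pool.Agent.U714.NC

open Real Filter Set Asymptotics Topology
open Pool.Agent.H491R3.PE Pool.Agent.TH709.NC

variable {a b : ℝ}

/-- the approximations with `|q α - p| < exp (-φ q)` -/
def Ap (α : ℝ) (φ : ℝ → ℝ) : Set (ℕ × ℕ) :=
  {l | 1 ≤ l.1 ∧ |(l.1 : ℝ) * α - l.2| < exp (-φ l.1)}

theorem irr_of_finite (ha : 1 < a) (hb : 1 < b) {φ : ℝ → ℝ}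
    (h : (Ap (log a / log b) φ).Finite) : Irrational (log a / log b) := by
  by_contra hirr
  obtain ⟨q, p, hq, hqp, -⟩ := rational_line ha hb hirr
  refine h.not_infinite (Set.infinite_of_injective_forall_mem
    (f := fun k : ℕ => ((k + 1) * q, (k + 1) * p)) ?_ ?_)
  · intro k l hkl
    have := congrArg Prod.fst hkl
    have := Nat.eq_of_mul_eq_mul_right hq this
    omega
  · intro k
    refine ⟨Nat.mul_pos (Nat.succ_pos k) hq, ?_⟩
    have e : (((k + 1) * q : ℕ) : ℝ) * (log a / log b) - (((k + 1) * p : ℕ) : ℝ) = 0 := by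
      push_cast
      rw [mul_assoc, hqp]
      ring
    show |(((k + 1) * q : ℕ) : ℝ) * (log a / log b) - (((k + 1) * p : ℕ) : ℝ)| < _
    rw [e, abs_zero]
    exact exp_pos _

theorem log_sq_le {q : ℝ} (hq : 1 ≤ q) : log q ^ 2 ≤ 4 * q := by
  have h1 := Real.log_le_rpow_div (x := q) (by linarith) (ε := 1 / 2) (by norm_num)
  have h2 : 0 ≤ log q := log_nonneg hq
  have h3 : (q ^ (1 / 2 : ℝ)) ^ 2 = q := by
    rw [← Real.rpow_two, ← Real.rpow_mul (by linarith)]
    norm_num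
  have h4 : log q ≤ 2 * q ^ (1 / 2 : ℝ) := by
    refine h1.trans (le_of_eq ?_)
    ring
  calc log q ^ 2 ≤ (2 * q ^ (1 / 2 : ℝ)) ^ 2 := pow_le_pow_left₀ h2 h4 2
    _ = 4 * q := by rw [mul_pow, h3]; norm_num

/-- the exceptional approximations for the truncation `x ^ κ` -/
theorem bad_rpow_iff {κ α : ℝ} (hκ : 0 < κ) :
    (∀ δ : ℝ, 0 < δ → (Bad (fun x => x ^ κ) α δ).Finite) ↔
      ∀ ε : ℝ, 0 < ε → (Ap α (fun q => ε * q * log q ^ 2)).Finite := by
  have hl2 : 0 < log 2 := log_pos (by norm_num)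
  constructor
  · intro h ε hε
    by_contra hinf
    set η : ℝ := min ε 1 with hη
    have hη0 : 0 < η := lt_min hε one_pos
    have hη1 : η ≤ 1 := min_le_right _ _
    have hηε : η ≤ ε := min_le_left _ _
    have h1 := h (η * κ ^ 2 / 16) (by positivity)
    have h2 : (Ap α (fun q => ε * q * log q ^ 2) \
        Bad (fun x => x ^ κ) α (η * κ ^ 2 / 16)).Infinite := Set.Infinite.sdiff hinf h1
    obtain ⟨l, ⟨hl, hl'⟩, hlN⟩ := exists_large (α := α) h2 (by
      rintro l ⟨⟨hl1, hl⟩, -⟩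
      refine hl.trans_le ?_
      rw [Real.exp_le_one_iff]
      have : 0 ≤ ε * l.1 * log l.1 ^ 2 := by positivity
      linarith) ⌈(2 : ℝ) ^ (κ / 2)⌉₊
    apply hl'
    obtain ⟨hl1, hl2⟩ := hl
    have hq0 : (1 : ℝ) ≤ l.1 := by exact_mod_cast hl1
    have hq00 : (0 : ℝ) < l.1 := by linarith
    have hqN : (2 : ℝ) ^ (κ / 2) ≤ l.1 := (Nat.le_ceil _).trans (by exact_mod_cast hlN)
    have hlog : log ((l.1 : ℝ) ^ (2 / κ)) = 2 / κ * log l.1 := Real.log_rpow hq00 _
    have e1 : η * κ ^ 2 / 16 * l.1 * (2 / κ * log l.1) ^ 2 = η / 4 * l.1 * log l.1 ^ 2 := by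
      field_simp
      ring
    refine ⟨hl1, (l.1 : ℝ) ^ (2 / κ), ?_, ?_, ?_⟩
    · calc (2 : ℝ) = ((2 : ℝ) ^ (κ / 2)) ^ (2 / κ) := by
            rw [← Real.rpow_mul (by norm_num)]
            have : κ / 2 * (2 / κ) = 1 := by field_simp
            rw [this, Real.rpow_one]
        _ ≤ _ := Real.rpow_le_rpow (by positivity) hqN (by positivity)
    · rw [hlog, e1]
      have e2 : ((l.1 : ℝ) ^ (2 / κ)) ^ κ = (l.1 : ℝ) ^ 2 := by
        rw [← Real.rpow_mul hq00.le]
        have : 2 / κ * κ = 2 := by field_simp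
        rw [this, Real.rpow_two]
      show η / 4 * l.1 * log l.1 ^ 2 ≤ ((l.1 : ℝ) ^ (2 / κ)) ^ κ
      rw [e2]
      have h3 := log_sq_le hq0
      calc η / 4 * l.1 * log l.1 ^ 2 ≤ 1 / 4 * l.1 * (4 * l.1) := by
            apply mul_le_mul _ h3 (by positivity) (by positivity)
            apply mul_le_mul_of_nonneg_right _ hq00.le
            linarith
        _ = (l.1 : ℝ) ^ 2 := by ring
    · rw [hlog, e1]
      refine hl2.trans_le (Real.exp_le_exp.2 ?_)
      have h4 : 0 ≤ (l.1 : ℝ) * log l.1 ^ 2 := by positivity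
      have h5 : η / 4 * l.1 * log l.1 ^ 2 = η / 4 * (l.1 * log l.1 ^ 2) := by ring
      have h6 : ε * l.1 * log l.1 ^ 2 = ε * (l.1 * log l.1 ^ 2) := by ring
      rw [h5]
      show -(ε * (l.1 : ℝ) * log l.1 ^ 2) ≤ _
      rw [h6]
      nlinarith
  · intro h δ hδ
    by_contra hinf
    have h1 := h (δ / (4 * κ ^ 2)) (by positivity)
    have h2 : (Bad (fun x => x ^ κ) α δ \
        Ap α (fun q => δ / (4 * κ ^ 2) * q * log q ^ 2)).Infinite := Set.Infinite.sdiff hinf h1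
    set c : ℝ := |log (δ * log 2 ^ 2)| with hc
    obtain ⟨l, ⟨hl, hl'⟩, hlN⟩ := exists_large (α := α) h2 (by
      rintro l ⟨⟨hl1, x, hx, -, hl⟩, -⟩
      refine hl.trans_le ?_
      rw [Real.exp_le_one_iff]
      have : 0 ≤ δ * l.1 * log x ^ 2 := by positivity
      linarith) ⌈exp (2 * c)⌉₊
    apply hl'
    obtain ⟨hl1, x, hx, hTx, hl2'⟩ := hl
    have hq0 : (1 : ℝ) ≤ l.1 := by exact_mod_cast hl1
    have hq00 : (0 : ℝ) < l.1 := by linarith
    have hx0 : 0 < x := by linarith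
    have hlx : log 2 ≤ log x := Real.log_le_log (by norm_num) hx
    have hL0 : 0 < log x := by linarith
    have hqN : exp (2 * c) ≤ l.1 := (Nat.le_ceil _).trans (by exact_mod_cast hlN)
    have hlogq : 2 * c ≤ log l.1 := by
      have := Real.log_le_log (exp_pos _) hqN
      rwa [Real.log_exp] at this
    have h3 : δ * log 2 ^ 2 * l.1 ≤ x ^ κ := by
      refine le_trans ?_ hTx
      have : log 2 ^ 2 ≤ log x ^ 2 := pow_le_pow_left₀ (by positivity) hlx 2
      calc δ * log 2 ^ 2 * l.1 = δ * l.1 * log 2 ^ 2 := by ring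
        _ ≤ _ := mul_le_mul_of_nonneg_left this (by positivity)
    have h4 := Real.log_le_log (by positivity) h3
    rw [Real.log_mul (by positivity) hq00.ne', Real.log_rpow hx0] at h4
    have h5 := neg_abs_le (log (δ * log 2 ^ 2))
    have h6 : log l.1 / (2 * κ) ≤ log x := by
      rw [div_le_iff₀ (by positivity)]
      linarith
    have hlq0 : 0 ≤ log (l.1 : ℝ) := log_nonneg hq0
    refine ⟨hl1, hl2'.trans_le (Real.exp_le_exp.2 ?_)⟩
    show -(δ * (l.1 : ℝ) * log x ^ 2) ≤ -(δ / (4 * κ ^ 2) * (l.1 : ℝ) * log l.1 ^ 2)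
    have h7 : (log l.1 / (2 * κ)) ^ 2 ≤ log x ^ 2 := pow_le_pow_left₀ (by positivity) h6 2
    have h8 : δ / (4 * κ ^ 2) * (l.1 : ℝ) * log l.1 ^ 2 = δ * l.1 * (log l.1 / (2 * κ)) ^ 2 := by
      field_simp
      ring
    rw [h8]
    have h9 : δ * l.1 * (log l.1 / (2 * κ)) ^ 2 ≤ δ * l.1 * log x ^ 2 :=
      mul_le_mul_of_nonneg_left h7 (by positivity)
    linarith

end Pool.Agent.U714.NC
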