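import Pool.Agent.U714.NC.Upper

/-!
# Truncated counts of near-coincidences: sums over the lines
-/

set_option autoImplicit false

namespace Pool.Agent.U714.NC

open Real Filter Set Asymptotics Topology
open Pool.Agent.H491R3.PE Pool.Agent.TH709.NC

variable {a b : ℝ}

theorem geo {t : ℝ} (ht : 0 < t) (n : ℕ) : ∀ (G : Finset ℕ) (Y : ℝ), G.card = n → 0 ≤ Y →
    (∀ p ∈ G, (p : ℝ) ≤ Y) → (∀ p ∈ G, ∀ q ∈ G, p < q → 2 * p ≤ q) →
    ∑ p ∈ G, (p : ℝ) ^ t ≤ Y ^ t / (1 - (1 / 2 : ℝ) ^ t) := by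
  have hr1 : (1 / 2 : ℝ) ^ t < 1 := Real.rpow_lt_one (by norm_num) (by norm_num) ht
  have hr0 : 0 < (1 / 2 : ℝ) ^ t := Real.rpow_pos_of_pos (by norm_num) _
  set r := (1 / 2 : ℝ) ^ t with hr
  have h1r : 0 < 1 - r := by linarith
  induction n with
  | zero =>
    intro G Y hG hY _ _
    rw [Finset.card_eq_zero.1 hG, Finset.sum_empty]
    positivity
  | succ n ih =>
    intro G Y hG hY hGY hG2
    have hne : G.Nonempty := by
      rw [← Finset.card_pos]
      omega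
    set k := G.max' hne with hk
    have hkG : k ∈ G := G.max'_mem hne
    have hkY : (k : ℝ) ≤ Y := hGY k hkG
    have hk0 : (0 : ℝ) ≤ k := Nat.cast_nonneg _
    have h1 : ∑ p ∈ G.erase k, (p : ℝ) ^ t ≤ ((k : ℝ) * (1 / 2)) ^ t / (1 - r) := by
      apply ih (G.erase k) ((k : ℝ) * (1 / 2))
      · rw [Finset.card_erase_of_mem hkG]
        omega
      · positivity
      · intro p hp
        rw [Finset.mem_erase] at hp
        have := hG2 p hp.2 k hkG (lt_of_le_of_ne (G.le_max' p hp.2) hp.1)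
        have h2 : (2 : ℝ) * p ≤ k := by exact_mod_cast this
        linarith
      · intro p hp q hq hpq
        exact hG2 p (Finset.mem_of_mem_erase hp) q (Finset.mem_of_mem_erase hq) hpq
    rw [← Finset.add_sum_erase G _ hkG]
    rw [Real.mul_rpow hk0 (by norm_num), ← hr] at h1
    have h2 : (k : ℝ) ^ t ≤ Y ^ t := Real.rpow_le_rpow hk0 hkY ht.le
    have h3 : (k : ℝ) ^ t + (k : ℝ) ^ t * r / (1 - r) = (k : ℝ) ^ t / (1 - r) := by
      field_simp
      ring
    have h4 : (k : ℝ) ^ t / (1 - r) ≤ Y ^ t / (1 - r) := div_le_div_of_nonneg_right h2 h1r.le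
    linarith

/-- the two sums over members of `LL` -/
theorem sums (ha : 1 < a) (hb : 1 < b) : ∃ n₀ : ℕ, 1 ≤ n₀ ∧ ∀ F : Finset (ℕ × ℕ),
    (∀ l ∈ F, l ∈ LL a b ∧ n₀ ≤ l.1) →
    (∀ m : ℕ, 1 ≤ m → (∀ l ∈ F, m ≤ l.1) → ∑ l ∈ F, (1 : ℝ) / l.1 ≤ 2 / m) ∧
    (∀ t Y : ℝ, 0 < t → 0 ≤ Y → (∀ l ∈ F, (l.1 : ℝ) ≤ Y) →
      ∑ l ∈ F, (l.1 : ℝ) ^ t ≤ Y ^ t / (1 - (1 / 2 : ℝ) ^ t)) := by
  classical
  obtain ⟨n₀, lam, hn₀, hlam, hlam1, hln, g1, g2, g3⟩ := gaps ha hb
  refine ⟨n₀, hn₀, fun F hF => ?_⟩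
  have hinj : Set.InjOn (Prod.fst : ℕ × ℕ → ℕ) (F : Set (ℕ × ℕ)) := by
    intro p hp q hq hpq
    exact g1 p (hF p hp).1 q (hF q hq).1 (hF p hp).2 hpq
  have hdbl : ∀ p ∈ F.image Prod.fst, ∀ q ∈ F.image Prod.fst, p < q → 2 * p ≤ q := by
    intro p hp q hq hpq
    obtain ⟨l, hl, rfl⟩ := Finset.mem_image.1 hp
    obtain ⟨k, hk, rfl⟩ := Finset.mem_image.1 hq
    exact g2 l (hF l hl).1 k (hF k hk).1 (hF l hl).2 hpq
  constructor
  · intro m hm hFm
    have h1 : ∑ l ∈ F, (1 : ℝ) / l.1 = ∑ p ∈ F.image Prod.fst, (1 : ℝ) / p := by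
      rw [Finset.sum_image hinj]
    rw [h1]
    refine sum_inv _ (F.image Prod.fst) m rfl hm ?_ hdbl
    intro p hp
    obtain ⟨l, hl, rfl⟩ := Finset.mem_image.1 hp
    exact hFm l hl
  · intro t Y ht hY hFY
    have h1 : ∑ l ∈ F, (l.1 : ℝ) ^ t = ∑ p ∈ F.image Prod.fst, (p : ℝ) ^ t := by
      rw [Finset.sum_image hinj]
    rw [h1]
    refine geo ht _ (F.image Prod.fst) Y rfl hY ?_ hdbl
    intro p hp
    obtain ⟨l, hl, rfl⟩ := Finset.mem_image.1 hp
    exact hFY l hl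

/-- the contribution of the lines with small first coordinate -/
theorem small_lines (ha : 1 < a) (hb : 1 < b) (hirr : Irrational (log a / log b)) (Q : ℕ) :
    ∃ C : ℝ, 0 ≤ C ∧ ∀ x T : ℝ, 2 ≤ x → 0 ≤ T →
      ∑ l ∈ (FF ha hb T).filter (fun l => l.1 ≤ Q), ((GG a b x T l).card : ℝ) ≤ C * log x := by
  classical
  have hA : 0 < log a := log_pos ha
  have hl2 : 0 < log 2 := log_pos (by norm_num)
  have h1 := hirr.eventually_forall_le_dist_cast_div_of_denom_le Q
  have h2 : ∃ θ : ℝ, 0 < θ ∧ ∀ k ≤ Q, ∀ m : ℤ, θ ≤ dist (log a / log b) (m / k) := by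
    have h3 : ∀ᶠ ε : ℝ in 𝓝[>] 0, ∀ k ≤ Q, ∀ m : ℤ, ε ≤ dist (log a / log b) (m / k) :=
      h1.filter_mono nhdsWithin_le_nhds
    obtain ⟨θ, h4, h5⟩ := (h3.and self_mem_nhdsWithin).exists
    exact ⟨θ, h5, h4⟩
  obtain ⟨θ, hθ, hd⟩ := h2
  set c := |log (2 / log b)| + |log θ| with hc
  have hc0 : 0 ≤ c := by positivity
  have hF0 := LL_fin ha hb Q
  refine ⟨hF0.toFinset.card * ((1 + c / log 2) / log a), by positivity, fun x T hx hT => ?_⟩
  have hlx : log 2 ≤ log x := Real.log_le_log (by norm_num) hx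
  have hcx : log x + c ≤ (1 + c / log 2) * log x := by
    have : c ≤ c / log 2 * log x := by
      rw [div_mul_eq_mul_div, le_div_iff₀ hl2]
      exact mul_le_mul_of_nonneg_left hlx hc0
    linarith
  have h3 : ∀ l ∈ (FF ha hb T).filter (fun l => l.1 ≤ Q),
      ((GG a b x T l).card : ℝ) ≤ (1 + c / log 2) / log a * log x := by
    intro l hl
    rw [Finset.mem_filter] at hl
    have hl1 : 1 ≤ l.1 := (mem_FF ha hb hl.1).1
    have hl0 : (1 : ℝ) ≤ l.1 := by exact_mod_cast hl1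
    have h4 := hd l.1 hl.2 (l.2 : ℤ)
    rw [Real.dist_eq] at h4
    have h5 : θ ≤ |(l.1 : ℝ) * (log a / log b) - l.2| := by
      have e : (l.1 : ℝ) * (log a / log b) - l.2 =
          l.1 * (log a / log b - ((l.2 : ℤ) : ℝ) / l.1) := by
        push_cast
        field_simp
      rw [e, abs_mul, abs_of_pos (by linarith : (0 : ℝ) < l.1)]
      nlinarith [abs_nonneg (log a / log b - ((l.2 : ℤ) : ℝ) / l.1)]
    refine (GG_bound ha hb hx hl1 hθ h5).trans ?_
    have h6 : (log x + |log (2 / log b)| + |log θ|) / (l.1 * log a) ≤ (log x + c) / (1 * log a) := by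
      have e : log x + |log (2 / log b)| + |log θ| = log x + c := by rw [hc]; ring
      rw [e]
      apply div_le_div_of_nonneg_left (by linarith) (by positivity)
      exact mul_le_mul_of_nonneg_right hl0 hA.le
    refine h6.trans ?_
    rw [one_mul, div_mul_eq_mul_div]
    exact div_le_div_of_nonneg_right hcx hA.le
  refine (Finset.sum_le_card_nsmul _ _ _ h3).trans ?_
  rw [nsmul_eq_mul]
  have h7 : ((FF ha hb T).filter (fun l => l.1 ≤ Q)).card ≤ hF0.toFinset.card := by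
    apply Finset.card_le_card
    intro l hl
    rw [Finset.mem_filter] at hl
    rw [Set.Finite.mem_toFinset]
    exact ⟨mem_FF ha hb hl.1, hl.2⟩
  have h8 : (((FF ha hb T).filter (fun l => l.1 ≤ Q)).card : ℝ) ≤ hF0.toFinset.card := by
    exact_mod_cast h7
  have h9 : 0 ≤ (1 + c / log 2) / log a * log x := by
    have : 0 ≤ log x := by linarith
    positivity
  calc _ ≤ (hF0.toFinset.card : ℝ) * ((1 + c / log 2) / log a * log x) :=
        mul_le_mul_of_nonneg_right h8 h9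
    _ = _ := by ring

/-- lower bound for `RR` -/
theorem RR_lower {x T : ℝ} (hfin : (RR a b x T).Finite) {q p : ℕ} (hq : 1 ≤ q)
    {g₀ G : ℕ} (h : ∀ g : ℕ, g₀ < g → g ≤ G → ((g * q : ℕ) : ℝ) ≤ T ∧
      |a ^ (g * q) - b ^ (g * p)| ≤ x ∧ x ^ 2 < a ^ (g * q)) :
    (G : ℝ) - g₀ ≤ ((RR a b x T).ncard : ℝ) := by
  classical
  have hinj : Function.Injective (fun g : ℕ => (g * q, g * p)) := by
    intro g g' hg
    have := congrArg Prod.fst hg
    exact Nat.eq_of_mul_eq_mul_right hq this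
  have hsub : (((Finset.Ioc g₀ G).image (fun g : ℕ => (g * q, g * p)) : Finset (ℕ × ℕ)) :
      Set (ℕ × ℕ)) ⊆ RR a b x T := by
    intro y hy
    rw [Finset.mem_coe, Finset.mem_image] at hy
    obtain ⟨g, hg, rfl⟩ := hy
    rw [Finset.mem_Ioc] at hg
    exact h g hg.1 hg.2
  have h1 := Set.ncard_le_ncard hsub hfin
  rw [Set.ncard_coe_finset, Finset.card_image_of_injective _ hinj, Nat.card_Ioc] at h1
  have h2 : ((G - g₀ : ℕ) : ℝ) ≤ ((RR a b x T).ncard : ℝ) := by exact_mod_cast h1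
  refine le_trans ?_ h2
  have h3 : G ≤ (G - g₀) + g₀ := by omega
  have h4 : (G : ℝ) ≤ ((G - g₀ : ℕ) : ℝ) + g₀ := by exact_mod_cast h3
  linarith

/-- the asymptotic formula in terms of `RR` -/
theorem equiv_iff (ha : 1 < a) (hb : 1 < b) {T : ℝ → ℝ}
    (hT : ∀ᶠ x in atTop, 2 / log a * log x ≤ T x) :
    ((fun x : ℝ => ((PT a b x (T x)).ncard : ℝ)) ~[atTop]
        (fun x : ℝ => log x ^ 2 / (log a * log b))) ↔
      (fun x : ℝ => ((RR a b x (T x)).ncard : ℝ)) =o[atTop] (fun x : ℝ => log x ^ 2) := by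
  have hA : 0 < log a := log_pos ha
  have hB : 0 < log b := log_pos hb
  obtain ⟨C, hC0, hC⟩ := NB_count ha hb
  have hNB : (fun x : ℝ => ((NB a b x).ncard : ℝ) - log x ^ 2 / (log a * log b)) =o[atTop]
      (fun x : ℝ => log x ^ 2) := by
    refine IsBigO.trans_isLittleO (g := fun x : ℝ => log x) ?_ log_littleO
    refine IsBigO.of_bound C ?_
    filter_upwards [eventually_ge_atTop (2 : ℝ)] with x hx
    rw [Real.norm_eq_abs, Real.norm_eq_abs, abs_of_nonneg (log_nonneg (by linarith))]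
    exact (hC x hx).2
  have heq : (fun x : ℝ => ((PT a b x (T x)).ncard : ℝ) - log x ^ 2 / (log a * log b)) =ᶠ[atTop]
      (fun x : ℝ => (((NB a b x).ncard : ℝ) - log x ^ 2 / (log a * log b)) +
        ((RR a b x (T x)).ncard : ℝ)) := by
    filter_upwards [eventually_ge_atTop (2 : ℝ), hT] with x hx hx2
    rw [(PT_split ha hb hx hx2).2]
    ring
  have hAB : (log a * log b)⁻¹ ≠ 0 := inv_ne_zero (by positivity)
  have e1 : (fun x : ℝ => log x ^ 2 / (log a * log b)) =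
      (fun x : ℝ => (log a * log b)⁻¹ * log x ^ 2) := by
    ext x
    rw [div_eq_mul_inv, mul_comm]
  have e2 : ((fun x : ℝ => ((PT a b x (T x)).ncard : ℝ)) ~[atTop]
        (fun x : ℝ => log x ^ 2 / (log a * log b))) ↔
      (fun x : ℝ => ((PT a b x (T x)).ncard : ℝ) - log x ^ 2 / (log a * log b)) =o[atTop]
        (fun x : ℝ => log x ^ 2) := by
    unfold IsEquivalent
    have e3 : (fun x : ℝ => ((PT a b x (T x)).ncard : ℝ)) - (fun x : ℝ => log x ^ 2 / (log a * log b))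
        = (fun x : ℝ => ((PT a b x (T x)).ncard : ℝ) - log x ^ 2 / (log a * log b)) := rfl
    rw [e3]
    conv_lhs => rw [e1]
    rw [isLittleO_const_mul_right_iff hAB]
  rw [e2, isLittleO_congr heq (EventuallyEq.refl _ _)]
  constructor
  · intro h
    have := h.sub hNB
    simpa using this
  · intro h
    exact hNB.add h

end Pool.Agent.U714.NC
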