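import Pool.Agent.U714.NC.Sums

/-!
# Truncated counts of near-coincidences: the theorems
-/

set_option autoImplicit false

namespace Pool.Agent.U714.NC

open Real Filter Set Asymptotics Topology
open Pool.Agent.H491R3.PE Pool.Agent.TH709.NC

variable {a b : ℝ}

/-- the unconditional bound -/
theorem unconditional (ha : 1 < a) (hb : 1 < b) : ∃ C : ℝ, 0 < C ∧ ∀ x T : ℝ, 2 ≤ x →
    C * log x ≤ T → (PT a b x T).Finite ∧
      |((PT a b x T).ncard : ℝ) - log x ^ 2 / (log a * log b)| ≤ C * T := by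
  have hA : 0 < log a := log_pos ha
  obtain ⟨C₁, hC₁0, hC₁⟩ := NB_count ha hb
  obtain ⟨C₂, hC₂0, hC₂⟩ := sum_LL ha hb
  refine ⟨2 / log a + C₁ + C₂ + 1, by positivity, fun x T hx hT => ?_⟩
  have hlx : 0 < log x := log_pos (by linarith)
  have h1 : 2 / log a * log x ≤ T := by
    refine le_trans (mul_le_mul_of_nonneg_right ?_ hlx.le) hT
    linarith
  have h1' : log x ≤ T := by
    refine le_trans ?_ hT
    have : 0 ≤ 2 / log a + C₁ + C₂ := by positivity
    nlinarith
  have hT0 : 0 ≤ T := hlx.le.trans h1'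
  obtain ⟨h2, h3⟩ := PT_split ha hb hx h1
  refine ⟨h2, ?_⟩
  have h4 := (hC₁ x hx).2
  have h5 := (RR_card ha hb hx hT0).2
  have h6 : ∑ l ∈ FF ha hb T, ((GG a b x T l).card : ℝ) ≤ T * C₂ := by
    calc ∑ l ∈ FF ha hb T, ((GG a b x T l).card : ℝ)
        ≤ ∑ l ∈ FF ha hb T, T * (1 / l.1) := Finset.sum_le_sum fun l _ => GG_le_div hT0 l
      _ = T * ∑ l ∈ FF ha hb T, (1 : ℝ) / l.1 := by rw [Finset.mul_sum]
      _ ≤ T * C₂ := mul_le_mul_of_nonneg_left (hC₂ _ fun l hl => mem_FF ha hb hl) hT0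
  have h7 : (0 : ℝ) ≤ ((RR a b x T).ncard : ℝ) := Nat.cast_nonneg _
  have h8 : C₁ * log x ≤ C₁ * T := mul_le_mul_of_nonneg_left h1' hC₁0
  have h9 : 0 ≤ 2 / log a * T := by positivity
  rw [h3]
  rw [abs_le] at *
  constructor <;> nlinarith [h4.1, h4.2]

/-- `log ^ 2` tends to infinity -/
theorem log_le_eps {C δ : ℝ} (hδ : 0 < δ) : ∀ᶠ x : ℝ in atTop, C * log x ≤ δ * log x ^ 2 := by
  have h1 : ∀ᶠ x : ℝ in atTop, |C| / δ ≤ log x := Real.tendsto_log_atTop.eventually_ge_atTop _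
  filter_upwards [h1, eventually_ge_atTop (2 : ℝ)] with x hx hx2
  have hlx : 0 < log x := log_pos (by linarith)
  rw [div_le_iff₀ hδ] at hx
  have h2 : C ≤ log x * δ := (le_abs_self C).trans hx
  nlinarith

theorem const_le_eps {C δ : ℝ} (hδ : 0 < δ) : ∀ᶠ x : ℝ in atTop, C ≤ δ * log x ^ 2 := by
  have h1 : ∀ᶠ x : ℝ in atTop, 1 ≤ log x := Real.tendsto_log_atTop.eventually_ge_atTop _
  filter_upwards [h1, log_le_eps (C := |C|) hδ] with x hx hx2
  have : C ≤ |C| * log x := (le_abs_self C).trans (by nlinarith [abs_nonneg C])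
  linarith

/-- irrationality gives the asymptotic formula up to `K (log x) ^ 2` -/
theorem small_of_irrational (ha : 1 < a) (hb : 1 < b) (hirr : Irrational (log a / log b)) {K : ℝ}
    (hK : 0 < K) : (fun x : ℝ => ((RR a b x (K * log x ^ 2)).ncard : ℝ)) =o[atTop]
      (fun x : ℝ => log x ^ 2) := by
  classical
  obtain ⟨n₀, hn₀, hs⟩ := sums ha hb
  rw [isLittleO_iff]
  intro δ hδ
  obtain ⟨Q, hQ⟩ := exists_nat_ge (4 * K / δ)
  set Q' := max Q n₀ with hQ'
  obtain ⟨C, hC0, hC⟩ := small_lines ha hb hirr Q'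
  filter_upwards [eventually_ge_atTop (2 : ℝ), log_le_eps (C := C) (half_pos hδ)] with x hx hx1
  have hlx : 0 < log x := log_pos (by linarith)
  have hT0 : 0 ≤ K * log x ^ 2 := by positivity
  rw [Real.norm_eq_abs, Real.norm_eq_abs, abs_of_nonneg (Nat.cast_nonneg _),
    abs_of_nonneg (by positivity)]
  refine (RR_card ha hb hx hT0).2.trans ?_
  rw [← Finset.sum_filter_add_sum_filter_not (FF ha hb (K * log x ^ 2)) (fun l => l.1 ≤ Q')]
  have h1 := hC x (K * log x ^ 2) hx hT0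
  have h2 : ∑ l ∈ (FF ha hb (K * log x ^ 2)).filter (fun l => ¬ l.1 ≤ Q'),
      ((GG a b x (K * log x ^ 2) l).card : ℝ) ≤ δ / 2 * log x ^ 2 := by
    have hmem : ∀ l ∈ (FF ha hb (K * log x ^ 2)).filter (fun l => ¬ l.1 ≤ Q'),
        l ∈ LL a b ∧ n₀ ≤ l.1 := by
      intro l hl
      rw [Finset.mem_filter] at hl
      refine ⟨mem_FF ha hb hl.1, ?_⟩
      have := le_max_right Q n₀
      omega
    have h3 := (hs _ hmem).1 (Q' + 1) (by omega) (by
      intro l hl
      rw [Finset.mem_filter] at hl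
      omega)
    calc _ ≤ ∑ l ∈ (FF ha hb (K * log x ^ 2)).filter (fun l => ¬ l.1 ≤ Q'),
          K * log x ^ 2 * (1 / l.1) := Finset.sum_le_sum fun l _ => GG_le_div hT0 l
      _ = K * log x ^ 2 * ∑ l ∈ (FF ha hb (K * log x ^ 2)).filter (fun l => ¬ l.1 ≤ Q'),
          (1 : ℝ) / l.1 := by rw [Finset.mul_sum]
      _ ≤ K * log x ^ 2 * (2 / ((Q' + 1 : ℕ) : ℝ)) := mul_le_mul_of_nonneg_left h3 hT0
      _ ≤ δ / 2 * log x ^ 2 := by
          have h4 : 4 * K / δ ≤ ((Q' + 1 : ℕ) : ℝ) := by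
            refine hQ.trans ?_
            have : Q ≤ Q' := le_max_left _ _
            exact_mod_cast this.trans (Nat.le_succ _)
          have h5 : (0 : ℝ) < ((Q' + 1 : ℕ) : ℝ) := by positivity
          have h6 : K * (2 / ((Q' + 1 : ℕ) : ℝ)) ≤ δ / 2 := by
            rw [div_le_iff₀ hδ] at h4
            rw [← mul_div_assoc, div_le_iff₀ h5]
            linarith
          have h7 : 0 ≤ log x ^ 2 := by positivity
          calc K * log x ^ 2 * (2 / ((Q' + 1 : ℕ) : ℝ)) =
              K * (2 / ((Q' + 1 : ℕ) : ℝ)) * log x ^ 2 := by ring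
            _ ≤ _ := mul_le_mul_of_nonneg_right h6 h7
  linarith

/-- rational quotient -/
theorem rational_line (ha : 1 < a) (hb : 1 < b) (h : ¬ Irrational (log a / log b)) :
    ∃ q p : ℕ, 1 ≤ q ∧ (q : ℝ) * (log a / log b) = p ∧ ∀ k : ℕ, a ^ (k * q) = b ^ (k * p) := by
  have hA : 0 < log a := log_pos ha
  have hB : 0 < log b := log_pos hb
  unfold Irrational at h
  push Not at h
  obtain ⟨q, hq⟩ := h
  have hq0 : (0 : ℝ) < (q : ℝ) := by rw [hq]; positivity
  have hq0' : 0 < q := by exact_mod_cast hq0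
  have hnum : 0 < q.num := Rat.num_pos.2 hq0'
  have hcast : (q : ℝ) = (q.num.toNat : ℝ) / (q.den : ℝ) := by
    have h1 : ((q.num.toNat : ℤ)) = q.num := Int.toNat_of_nonneg hnum.le
    have h2 : (q : ℝ) = (q.num : ℝ) / (q.den : ℝ) := Rat.cast_def q
    rw [h2]
    congr 1
    exact_mod_cast h1.symm
  have hden : (0 : ℝ) < (q.den : ℝ) := by exact_mod_cast q.den_pos
  have key : (q.den : ℝ) * log a = (q.num.toNat : ℝ) * log b := by
    rw [hcast, div_eq_div_iff hden.ne' hB.ne'] at hq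
    linarith
  have hpow : a ^ q.den = b ^ q.num.toNat := by
    have h3 : log (a ^ q.den) = log (b ^ q.num.toNat) := by
      rw [Real.log_pow, Real.log_pow]
      exact key
    exact Real.log_injOn_pos (by positivity : (0 : ℝ) < a ^ q.den)
      (by positivity : (0 : ℝ) < b ^ q.num.toNat) h3
  refine ⟨q.den, q.num.toNat, q.den_pos, ?_, fun k => ?_⟩
  · rw [← mul_div_assoc, key, mul_div_assoc, div_self hB.ne', mul_one]
  · rw [mul_comm, pow_mul, hpow, mul_comm k, pow_mul]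

/-- the converse -/
theorem irrational_of_small (ha : 1 < a) (hb : 1 < b) {K : ℝ} (hK : 0 < K)
    (h : (fun x : ℝ => ((RR a b x (K * log x ^ 2)).ncard : ℝ)) =o[atTop]
      (fun x : ℝ => log x ^ 2)) : Irrational (log a / log b) := by
  by_contra hirr
  have hA : 0 < log a := log_pos ha
  obtain ⟨q, p, hq, -, hqp⟩ := rational_line ha hb hirr
  have hq0 : (0 : ℝ) < q := by exact_mod_cast hq
  rw [isLittleO_iff] at h
  have h1 := h (c := K / q / 4) (by positivity)
  have h2 := log_le_eps (C := 2 / (q * log a)) (δ := K / q / 4) (by positivity)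
  have h3 := const_le_eps (C := 2) (δ := K / q / 4) (by positivity)
  obtain ⟨x, hx1, hx2, hx3, hx⟩ := (h1.and (h2.and (h3.and (eventually_ge_atTop (2 : ℝ))))).exists
  have hlx : 0 < log x := log_pos (by linarith)
  have hT0 : 0 ≤ K * log x ^ 2 := by positivity
  rw [Real.norm_eq_abs, Real.norm_eq_abs, abs_of_nonneg (Nat.cast_nonneg _),
    abs_of_nonneg (by positivity)] at hx1
  have h4 := RR_lower (a := a) (b := b) (x := x) (T := K * log x ^ 2)
    (RR_card ha hb hx hT0).1 hq (p := p) (g₀ := ⌊2 / (q * log a) * log x⌋₊)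
    (G := ⌊K / q * log x ^ 2⌋₊) (by
    intro g hg1 hg2
    refine ⟨?_, ?_, ?_⟩
    · have h5 := (Nat.le_floor_iff (by positivity)).1 hg2
      push_cast
      calc (g : ℝ) * q ≤ K / q * log x ^ 2 * q := mul_le_mul_of_nonneg_right h5 hq0.le
        _ = K * log x ^ 2 := by field_simp
    · rw [hqp, sub_self, abs_zero]
      linarith
    · have h5 := (Nat.floor_lt (by positivity)).1 hg1
      rw [lt_pow_iff_log ha (by positivity), Real.log_pow]
      push_cast
      rw [div_lt_iff₀ hA]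
      rw [div_mul_eq_mul_div, div_lt_iff₀ (by positivity)] at h5
      linarith)
  have h6 : (⌊2 / (q * log a) * log x⌋₊ : ℝ) ≤ 2 / (q * log a) * log x :=
    Nat.floor_le (by positivity)
  have h7 : K / q * log x ^ 2 < (⌊K / q * log x ^ 2⌋₊ : ℝ) + 1 := Nat.lt_floor_add_one _
  have h8 : 0 < K / q * log x ^ 2 := by positivity
  nlinarith

end Pool.Agent.U714.NC
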