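import Pool.Agent.U714.NC.Upper
import Pool.Agent.U714.NC.Sums

/-!
# Near-coincidences: only tiny differences can spoil the count
-/

set_option autoImplicit false

namespace Pool.Agent.U714.NC

open Real Filter Set Asymptotics Topology
open Pool.Agent.H491R3.PE Pool.Agent.TH709.NC

variable {a b : ℝ}

/-- the pairs with `n ≤ T` and `δ < |a ^ n - b ^ m| ≤ x` -/
def BT (a b δ x T : ℝ) : Set (ℕ × ℕ) :=
  {p | (p.1 : ℝ) ≤ T ∧ δ < |a ^ p.1 - b ^ p.2| ∧ |a ^ p.1 - b ^ p.2| ≤ x}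

/-- the pairs with `n ≤ T` and `|a ^ n - b ^ m| ≤ δ` -/
def TT (a b δ T : ℝ) : Set (ℕ × ℕ) := {p | (p.1 : ℝ) ≤ T ∧ |a ^ p.1 - b ^ p.2| ≤ δ}

theorem step {u v : ℝ} (hu : 0 ≤ u) (hv : 0 ≤ v) (g : ℕ) :
    u * |u ^ g - v ^ g| ≤ |u ^ (g + 1) - v ^ (g + 1)| := by
  rcases le_total v u with h | h
  · have h1 : v ^ g ≤ u ^ g := pow_le_pow_left₀ hv h g
    have h2 : v ^ (g + 1) ≤ u ^ (g + 1) := pow_le_pow_left₀ hv h (g + 1)
    rw [abs_of_nonneg (by linarith), abs_of_nonneg (by linarith), pow_succ, pow_succ]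
    have h3 : v ^ g * v ≤ v ^ g * u := mul_le_mul_of_nonneg_left h (by positivity)
    linarith
  · have h1 : u ^ g ≤ v ^ g := pow_le_pow_left₀ hu h g
    have h2 : u ^ (g + 1) ≤ v ^ (g + 1) := pow_le_pow_left₀ hu h (g + 1)
    rw [abs_of_nonpos (by linarith), abs_of_nonpos (by linarith), pow_succ, pow_succ]
    have h3 : v ^ g * u ≤ v ^ g * v := mul_le_mul_of_nonneg_left h (by positivity)
    linarith

theorem steps {u v : ℝ} (hu : 0 ≤ u) (hv : 0 ≤ v) (g j : ℕ) :
    u ^ j * |u ^ g - v ^ g| ≤ |u ^ (g + j) - v ^ (g + j)| := by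
  induction j with
  | zero => simp
  | succ j ih =>
    calc u ^ (j + 1) * |u ^ g - v ^ g| = u * (u ^ j * |u ^ g - v ^ g|) := by ring
      _ ≤ u * |u ^ (g + j) - v ^ (g + j)| := mul_le_mul_of_nonneg_left ih hu
      _ ≤ _ := step hu hv (g + j)

open Classical in
/-- the multiples of `l` in `RR` with difference greater than `δ` -/
noncomputable def GD (a b δ x T : ℝ) (l : ℕ × ℕ) : Finset ℕ :=
  (GG a b x T l).filter fun g => δ < |a ^ (g * l.1) - b ^ (g * l.2)|

theorem GD_card (ha : 1 < a) (hb : 1 < b) {δ x T : ℝ} (hδ : 0 < δ) (hδ1 : δ ≤ 1) (hx : 2 ≤ x)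
    {l : ℕ × ℕ} (hl : 1 ≤ l.1) :
    ((GD a b δ x T l).card : ℝ) ≤ (log x + log (1 / δ)) / log a * (1 / l.1) + 1 := by
  classical
  have hA : 0 < log a := log_pos ha
  have hlx : 0 < log x := log_pos (by linarith)
  have hx0 : 0 < x := by linarith
  have hd : 0 ≤ log (1 / δ) := log_nonneg (by rw [le_div_iff₀ hδ]; linarith)
  have hl0 : (0 : ℝ) < l.1 := by exact_mod_cast hl
  set W : ℝ := (log x + log (1 / δ)) / log a * (1 / l.1) with hW
  have hW0 : 0 ≤ W := by positivity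
  rcases (GD a b δ x T l).eq_empty_or_nonempty with he | hne
  · rw [he, Finset.card_empty]
    push_cast
    linarith
  set g₁ := (GD a b δ x T l).min' hne with hg₁
  have hg₁mem : g₁ ∈ GD a b δ x T l := (GD a b δ x T l).min'_mem hne
  have hsub : GD a b δ x T l ⊆ Finset.Icc g₁ (g₁ + ⌊W⌋₊) := by
    intro g hg
    have h1 : g₁ ≤ g := (GD a b δ x T l).min'_le g hg
    rw [Finset.mem_Icc]
    refine ⟨h1, ?_⟩
    obtain ⟨j, rfl⟩ := Nat.exists_eq_add_of_le h1
    apply Nat.add_le_add_left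
    apply Nat.le_floor
    rw [GD, Finset.mem_filter, GG, Finset.mem_filter] at hg hg₁mem
    have h2 := hg.1.2.1
    have h3 := hg₁mem.2
    have h4 := steps (u := a ^ l.1) (v := b ^ l.2) (by positivity) (by positivity) g₁ j
    rw [← pow_mul, ← pow_mul, ← pow_mul, ← pow_mul, ← pow_mul, mul_comm l.1 g₁, mul_comm l.2 g₁,
      mul_comm l.1 (g₁ + j), mul_comm l.2 (g₁ + j), mul_comm l.1 j] at h4
    have h5 : a ^ (j * l.1) * δ ≤ x := by
      refine le_trans (mul_le_mul_of_nonneg_left h3.le (by positivity)) (h4.trans h2)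
    have h6 : a ^ (j * l.1) ≤ x * (1 / δ) := by
      rw [mul_one_div, le_div_iff₀ hδ]
      exact h5
    have h7 := Real.log_le_log (by positivity) h6
    rw [Real.log_pow, Real.log_mul hx0.ne' (by positivity)] at h7
    push_cast at h7
    rw [hW, div_mul_div_comm, mul_one, le_div_iff₀ (by positivity)]
    linarith
  have h1 := Finset.card_le_card hsub
  rw [Nat.card_Icc] at h1
  have h2 : (GD a b δ x T l).card ≤ ⌊W⌋₊ + 1 := by omega
  have h3 : ((GD a b δ x T l).card : ℝ) ≤ (⌊W⌋₊ : ℝ) + 1 := by exact_mod_cast h2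
  have h4 := Nat.floor_le hW0
  linarith

theorem BT_count (ha : 1 < a) (hb : 1 < b) : ∃ C : ℝ, 0 < C ∧ 2 / log a ≤ C ∧
    ∀ (x δ T : ℝ) (h : ℕ), 2 ≤ x → 0 < δ → δ ≤ 1 → 2 / log a * log x ≤ T → T ≤ tow h →
      (BT a b δ x T).Finite ∧
      |((BT a b δ x T).ncard : ℝ) - log x ^ 2 / (log a * log b)| ≤
        C * (log x + log (1 / δ) + h) := by
  classical
  have hA : 0 < log a := log_pos ha
  have hl2 : 0 < log 2 := log_pos (by norm_num)
  obtain ⟨C₁, hC₁0, hC₁⟩ := NB_count ha hb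
  obtain ⟨C₂, hC₂0, hC₂⟩ := sum_LL ha hb
  obtain ⟨C₃, hC₃0, hC₃⟩ := on_count ha hb
  obtain ⟨C₄, hC₄⟩ := thin ha hb
  set N₂ : ℝ := ((NB a b 2).ncard : ℝ) with hN₂
  have hN₂0 : 0 ≤ N₂ := Nat.cast_nonneg _
  refine ⟨2 / log a + C₁ + C₂ / log a + C₃ + (C₄ + N₂) / log 2 + 1, by positivity, ?_, ?_⟩
  · have : 0 ≤ C₁ + C₂ / log a + C₃ + (C₄ + N₂) / log 2 + 1 := by positivity
    linarith
  intro x δ T h hx hδ hδ1 hT hTh
  have hlx0 : 0 < log x := log_pos (by linarith)
  have hlx : log 2 ≤ log x := Real.log_le_log (by norm_num) hx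
  have hd : 0 ≤ log (1 / δ) := log_nonneg (by rw [le_div_iff₀ hδ]; linarith)
  have hT0 : 0 ≤ T := le_trans (by positivity) hT
  obtain ⟨hPfin, -⟩ := PT_split ha hb hx hT
  obtain ⟨hNfin, hN⟩ := hC₁ x hx
  have hBfin : (BT a b δ x T).Finite := hPfin.subset fun p hp => ⟨hp.1, hp.2.2⟩
  refine ⟨hBfin, ?_⟩
  -- lower bound
  have low : ((NB a b x).ncard : ℝ) ≤ (BT a b δ x T).ncard + C₃ * log x + N₂ := by
    have hsub : NB a b x ⊆ BT a b δ x T ∪ ((NB a b x ∩ {p | On (LL a b) p}) ∪ NB a b 2) := by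
      rintro p ⟨h1, h2⟩
      rcases lt_or_ge δ |a ^ p.1 - b ^ p.2| with h3 | h3
      · left
        refine ⟨?_, h3, h1⟩
        have h5 := (pow_le_iff_log ha (by positivity) _).1 h2
        rw [Real.log_pow] at h5
        refine h5.trans (le_trans (le_of_eq ?_) hT)
        push_cast
        ring
      · right
        rcases le_or_gt (a ^ p.1) (2 ^ 2) with h4 | h4
        · right
          exact ⟨by linarith, h4⟩
        · left
          exact ⟨⟨h1, h2⟩, on_of_large ha hb le_rfl (by linarith) h4⟩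
    have hf1 : (NB a b x ∩ {p | On (LL a b) p}).Finite := hNfin.subset Set.inter_subset_left
    have hf2 : (NB a b 2).Finite := (hC₁ 2 le_rfl).1
    have h1 := Set.ncard_le_ncard hsub (hBfin.union (hf1.union hf2))
    have h2 := Set.ncard_union_le (BT a b δ x T) ((NB a b x ∩ {p | On (LL a b) p}) ∪ NB a b 2)
    have h3 := Set.ncard_union_le (NB a b x ∩ {p | On (LL a b) p}) (NB a b 2)
    have h4 : (NB a b x).ncard ≤ (BT a b δ x T).ncard +
        ((NB a b x ∩ {p | On (LL a b) p}).ncard + (NB a b 2).ncard) := by omega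
    have h5 : ((NB a b x).ncard : ℝ) ≤ (BT a b δ x T).ncard +
        ((NB a b x ∩ {p | On (LL a b) p}).ncard + (NB a b 2).ncard) := by exact_mod_cast h4
    have h6 := hC₃ x hx
    linarith
  -- upper bound
  have up : ((BT a b δ x T).ncard : ℝ) ≤ (NB a b x).ncard +
      ∑ l ∈ FF ha hb T, ((GD a b δ x T l).card : ℝ) := by
    have hsub : BT a b δ x T ⊆ NB a b x ∪ (((FF ha hb T).sigma fun l => GD a b δ x T l).image
        (fun y => (y.2 * y.1.1, y.2 * y.1.2)) : Finset (ℕ × ℕ)) := by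
      rintro p ⟨h1, h2, h3⟩
      rcases le_or_gt (a ^ p.1) (x ^ 2) with h4 | h4
      · exact Or.inl ⟨h3, h4⟩
      right
      obtain ⟨l, hl, g, rfl⟩ := on_of_large ha hb hx h3 h4
      have hl1 : 1 ≤ l.1 := hl.1
      have h5 : g * l.1 ≤ ⌊T⌋₊ := (Nat.le_floor_iff hT0).2 h1
      have hg : 1 ≤ g := by
        rcases Nat.eq_zero_or_pos g with h0 | h0
        · exfalso
          rw [h0] at h4
          simp only [zero_mul, pow_zero] at h4
          nlinarith
        · exact h0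
      rw [Finset.mem_coe, Finset.mem_image]
      refine ⟨⟨l, g⟩, ?_, rfl⟩
      rw [Finset.mem_sigma]
      refine ⟨?_, ?_⟩
      · rw [FF, Set.Finite.mem_toFinset]
        exact ⟨hl, (Nat.le_mul_of_pos_left _ hg).trans h5⟩
      · rw [GD, Finset.mem_filter, GG, Finset.mem_filter, Finset.mem_Icc]
        exact ⟨⟨⟨hg, (Nat.le_div_iff_mul_le (Nat.lt_of_lt_of_le Nat.zero_lt_one hl1)).2 h5⟩,
          h3, h4⟩, h2⟩
    have h1 := Set.ncard_le_ncard hsub (hNfin.union (Finset.finite_toSet _))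
    have h2 := Set.ncard_union_le (NB a b x) (((FF ha hb T).sigma fun l => GD a b δ x T l).image
        (fun y => (y.2 * y.1.1, y.2 * y.1.2)) : Finset (ℕ × ℕ))
    rw [Set.ncard_coe_finset] at h2
    have h3 : (((FF ha hb T).sigma fun l => GD a b δ x T l).image
        (fun y => (y.2 * y.1.1, y.2 * y.1.2))).card ≤
        ∑ l ∈ FF ha hb T, (GD a b δ x T l).card := by
      rw [← Finset.card_sigma]
      exact Finset.card_image_le
    have h4 : (BT a b δ x T).ncard ≤ (NB a b x).ncard +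
        ∑ l ∈ FF ha hb T, (GD a b δ x T l).card := by omega
    exact_mod_cast h4
  have hcard : ((FF ha hb T).card : ℝ) ≤ h + C₄ := by
    have h1 : (FF ha hb T).card ≤ {l | l ∈ LL a b ∧ l.1 ≤ tow h}.ncard := by
      rw [← Set.ncard_coe_finset]
      apply Set.ncard_le_ncard _ (LL_fin ha hb (tow h))
      intro l hl
      rw [Finset.mem_coe, FF, Set.Finite.mem_toFinset] at hl
      refine ⟨hl.1, hl.2.trans ?_⟩
      have : ⌊T⌋₊ ≤ ⌊((tow h : ℕ) : ℝ)⌋₊ := Nat.floor_le_floor hTh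
      rwa [Nat.floor_natCast] at this
    exact_mod_cast h1.trans (hC₄ h)
  have hsum : ∑ l ∈ FF ha hb T, ((GD a b δ x T l).card : ℝ) ≤
      (log x + log (1 / δ)) / log a * C₂ + (h + C₄) := by
    calc ∑ l ∈ FF ha hb T, ((GD a b δ x T l).card : ℝ)
        ≤ ∑ l ∈ FF ha hb T, ((log x + log (1 / δ)) / log a * (1 / l.1) + 1) :=
          Finset.sum_le_sum fun l hl => GD_card ha hb hδ hδ1 hx (mem_FF ha hb hl).1
      _ = (log x + log (1 / δ)) / log a * ∑ l ∈ FF ha hb T, (1 : ℝ) / l.1 +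
          (FF ha hb T).card := by
          rw [Finset.sum_add_distrib, ← Finset.mul_sum, Finset.sum_const, nsmul_eq_mul, mul_one]
      _ ≤ _ := by
          apply add_le_add _ hcard
          exact mul_le_mul_of_nonneg_left (hC₂ _ fun l hl => mem_FF ha hb hl) (by positivity)
  have hc : (C₄ : ℝ) + N₂ ≤ (C₄ + N₂) / log 2 * log x := by
    rw [div_mul_eq_mul_div, le_div_iff₀ hl2]
    exact mul_le_mul_of_nonneg_left hlx (by positivity)
  have hh : (0 : ℝ) ≤ h := Nat.cast_nonneg _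
  have e1 : (log x + log (1 / δ)) / log a * C₂ = C₂ / log a * (log x + log (1 / δ)) := by ring
  rw [e1] at hsum
  set D := 2 / log a + C₁ + C₂ / log a + C₃ + (C₄ + N₂) / log 2 + 1 with hD
  have hE : C₁ * log x + C₂ / log a * (log x + log (1 / δ)) + C₃ * log x +
      (C₄ + N₂) / log 2 * log x + h ≤ D * (log x + log (1 / δ) + h) := by
    have p1 : 0 ≤ (2 / log a + 1) * log x := by positivity
    have p2 : 0 ≤ (2 / log a + C₁ + C₃ + (C₄ + N₂) / log 2 + 1) * log (1 / δ) := by positivity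
    have p3 : 0 ≤ (2 / log a + C₁ + C₂ / log a + C₃ + (C₄ + N₂) / log 2) * h := by positivity
    have e : D * (log x + log (1 / δ) + h) - (C₁ * log x + C₂ / log a * (log x + log (1 / δ)) +
        C₃ * log x + (C₄ + N₂) / log 2 * log x + h) = (2 / log a + 1) * log x +
        (2 / log a + C₁ + C₃ + (C₄ + N₂) / log 2 + 1) * log (1 / δ) +
        (2 / log a + C₁ + C₂ / log a + C₃ + (C₄ + N₂) / log 2) * h := by
      rw [hD]
      ring
    linarith
  have q1 : 0 ≤ C₂ / log a * (log x + log (1 / δ)) := by positivity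
  have q2 : 0 ≤ C₃ * log x := by positivity
  have q3 : (0 : ℝ) ≤ C₄ := Nat.cast_nonneg _
  rw [abs_le] at hN ⊢
  constructor <;> linarith [hN.1, hN.2]

end Pool.Agent.U714.NC
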