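import Pool.Agent.TH709.NC.Lines

/-!
# Truncated counts of near-coincidences: upper bounds

The pairs `(n, m)` with `n ≤ T`, `|a ^ n - b ^ m| ≤ x` and `a ^ n > x ^ 2` lie on lines through
primitive near misses; the number of those on each line is bounded here.
-/

set_option autoImplicit false

namespace Pool.Agent.U714.NC

open Real Filter Set Asymptotics
open Pool.Agent.H491R3.PE Pool.Agent.TH709.NC

variable {a b : ℝ}

/-- the pairs `(n, m)` with `n ≤ T` and `|a ^ n - b ^ m| ≤ x` -/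
def PT (a b x T : ℝ) : Set (ℕ × ℕ) := {p | (p.1 : ℝ) ≤ T ∧ |a ^ p.1 - b ^ p.2| ≤ x}

/-- those with `a ^ n > x ^ 2` -/
def RR (a b x T : ℝ) : Set (ℕ × ℕ) :=
  {p | (p.1 : ℝ) ≤ T ∧ |a ^ p.1 - b ^ p.2| ≤ x ∧ x ^ 2 < a ^ p.1}

/-- the members of `LL` with first coordinate at most `T` -/
noncomputable def FF (ha : 1 < a) (hb : 1 < b) (T : ℝ) : Finset (ℕ × ℕ) :=
  (LL_fin ha hb ⌊T⌋₊).toFinset

open Classical in
/-- the multiples of `l` in `RR` -/
noncomputable def GG (a b x T : ℝ) (l : ℕ × ℕ) : Finset ℕ :=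
  (Finset.Icc 1 (⌊T⌋₊ / l.1)).filter fun g =>
    |a ^ (g * l.1) - b ^ (g * l.2)| ≤ x ∧ x ^ 2 < a ^ (g * l.1)

theorem RR_card (ha : 1 < a) (hb : 1 < b) {x T : ℝ} (hx : 2 ≤ x) (hT : 0 ≤ T) :
    (RR a b x T).Finite ∧
      ((RR a b x T).ncard : ℝ) ≤ ∑ l ∈ FF ha hb T, ((GG a b x T l).card : ℝ) := by
  classical
  have hsub : RR a b x T ⊆ (((FF ha hb T).sigma fun l => GG a b x T l).image
      (fun y => (y.2 * y.1.1, y.2 * y.1.2)) : Finset (ℕ × ℕ)) := by
    rintro p ⟨h1, h2, h3⟩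
    obtain ⟨l, hl, g, rfl⟩ := on_of_large ha hb hx h2 h3
    have hl1 : 1 ≤ l.1 := hl.1
    have h4 : g * l.1 ≤ ⌊T⌋₊ := (Nat.le_floor_iff hT).2 h1
    have hg : 1 ≤ g := by
      rcases Nat.eq_zero_or_pos g with h0 | h0
      · exfalso
        rw [h0] at h3
        simp only [zero_mul, pow_zero] at h3
        nlinarith
      · exact h0
    rw [Finset.mem_coe, Finset.mem_image]
    refine ⟨⟨l, g⟩, ?_, rfl⟩
    rw [Finset.mem_sigma]
    refine ⟨?_, ?_⟩
    · rw [FF, Set.Finite.mem_toFinset]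
      exact ⟨hl, (Nat.le_mul_of_pos_left _ hg).trans h4⟩
    · rw [GG, Finset.mem_filter, Finset.mem_Icc]
      exact ⟨⟨hg, (Nat.le_div_iff_mul_le (Nat.lt_of_lt_of_le Nat.zero_lt_one hl1)).2 h4⟩, h2, h3⟩
  refine ⟨(Finset.finite_toSet _).subset hsub, ?_⟩
  have h1 : (RR a b x T).ncard ≤ ((FF ha hb T).sigma fun l => GG a b x T l).card := by
    refine (Set.ncard_le_ncard hsub (Finset.finite_toSet _)).trans ?_
    rw [Set.ncard_coe_finset]
    exact Finset.card_image_le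
  rw [Finset.card_sigma] at h1
  exact_mod_cast h1

theorem mem_FF (ha : 1 < a) (hb : 1 < b) {T : ℝ} {l : ℕ × ℕ} (h : l ∈ FF ha hb T) : l ∈ LL a b := by
  rw [FF, Set.Finite.mem_toFinset] at h
  exact h.1

theorem GG_le_div {x T : ℝ} (hT : 0 ≤ T) (l : ℕ × ℕ) :
    ((GG a b x T l).card : ℝ) ≤ T * (1 / l.1) := by
  classical
  have h1 : (GG a b x T l).card ≤ ⌊T⌋₊ / l.1 := by
    refine (Finset.card_filter_le _ _).trans ?_
    rw [Nat.card_Icc, Nat.add_sub_cancel]
  have h2 : ((GG a b x T l).card : ℝ) ≤ ((⌊T⌋₊ / l.1 : ℕ) : ℝ) := by exact_mod_cast h1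
  refine h2.trans (Nat.cast_div_le.trans ?_)
  rw [mul_one_div]
  exact div_le_div_of_nonneg_right (Nat.floor_le hT) (Nat.cast_nonneg _)

theorem GG_le {x T W : ℝ} (l : ℕ × ℕ) (hW : 0 ≤ W) (h : ∀ g ∈ GG a b x T l, (g : ℝ) ≤ W) :
    ((GG a b x T l).card : ℝ) ≤ W := by
  classical
  have h1 : GG a b x T l ⊆ Finset.Icc 1 ⌊W⌋₊ := by
    intro g hg
    rw [Finset.mem_Icc]
    refine ⟨?_, (Nat.le_floor_iff hW).2 (h g hg)⟩
    rw [GG, Finset.mem_filter, Finset.mem_Icc] at hg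
    exact hg.1.1
  have h2 := Finset.card_le_card h1
  rw [Nat.card_Icc, Nat.add_sub_cancel] at h2
  exact le_trans (by exact_mod_cast h2) (Nat.floor_le hW)

/-- near pairs are good approximations -/
theorem near (ha : 1 < a) (hb : 1 < b) {x : ℝ} (hx : 2 ≤ x) {n m : ℕ}
    (h1 : |a ^ n - b ^ m| ≤ x) (h2 : x ^ 2 < a ^ n) :
    |(n : ℝ) * log a - m * log b| ≤ 2 * (x / a ^ n) := by
  have ha0 : 0 < a ^ n := by positivity
  have hb0 : 0 < b ^ m := by positivity
  have h4 : |b ^ m / a ^ n - 1| ≤ x / a ^ n := by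
    have e : b ^ m / a ^ n - 1 = -((a ^ n - b ^ m) / a ^ n) := by
      field_simp
      ring
    rw [e, abs_neg, abs_div, abs_of_pos ha0]
    exact div_le_div_of_nonneg_right h1 ha0.le
  have h5 : x / a ^ n ≤ 1 / 2 := by
    rw [div_le_div_iff₀ ha0 (by norm_num)]
    nlinarith
  have h6 := abs_log_le (h4.trans h5)
  have e2 : log (b ^ m / a ^ n) = -((n : ℝ) * log a - m * log b) := by
    rw [Real.log_div hb0.ne' (by positivity), Real.log_pow, Real.log_pow]
    ring
  rw [e2, abs_neg] at h6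
  linarith

/-- the number of multiples of `l` is bounded by the distance of `l` from the line -/
theorem GG_bound (ha : 1 < a) (hb : 1 < b) {x T θ : ℝ} (hx : 2 ≤ x) {l : ℕ × ℕ} (hl : 1 ≤ l.1)
    (hθ : 0 < θ) (h : θ ≤ |(l.1 : ℝ) * (log a / log b) - l.2|) :
    ((GG a b x T l).card : ℝ) ≤ (log x + |log (2 / log b)| + |log θ|) / (l.1 * log a) := by
  classical
  have hA : 0 < log a := log_pos ha
  have hB : 0 < log b := log_pos hb
  have hx0 : 0 < x := by linarith
  have hlx : 0 ≤ log x := log_nonneg (by linarith)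
  have hl0 : (0 : ℝ) < l.1 := by exact_mod_cast hl
  apply GG_le _ (by positivity)
  intro g hg
  rw [GG, Finset.mem_filter, Finset.mem_Icc] at hg
  obtain ⟨⟨hg1, -⟩, h1, h2⟩ := hg
  have hg0 : (1 : ℝ) ≤ g := by exact_mod_cast hg1
  have h3 := near ha hb hx h1 h2
  have e1 : ((g * l.1 : ℕ) : ℝ) * log a - ((g * l.2 : ℕ) : ℝ) * log b =
      g * log b * ((l.1 : ℝ) * (log a / log b) - l.2) := by
    push_cast
    field_simp
  rw [e1, abs_mul, abs_of_nonneg (by positivity)] at h3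
  have h4 : log b * θ ≤ 2 * (x / a ^ (g * l.1)) := by
    refine le_trans ?_ h3
    have : log b * θ ≤ log b * |(l.1 : ℝ) * (log a / log b) - l.2| :=
      mul_le_mul_of_nonneg_left h hB.le
    refine this.trans ?_
    have h5 : 0 ≤ log b * |(l.1 : ℝ) * (log a / log b) - l.2| := by positivity
    nlinarith
  have hp : 0 < a ^ (g * l.1) := by positivity
  have h5 : a ^ (g * l.1) ≤ 2 / log b * (x / θ) := by
    have e2 : 2 / log b * (x / θ) = 2 * x / (log b * θ) := by field_simp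
    rw [e2, le_div_iff₀ (by positivity)]
    have e3 : 2 * (x / a ^ (g * l.1)) = 2 * x / a ^ (g * l.1) := by ring
    rw [e3, le_div_iff₀ hp] at h4
    linarith
  have h6 := Real.log_le_log hp h5
  rw [Real.log_pow, Real.log_mul (by positivity) (by positivity), Real.log_div hx0.ne' hθ.ne'] at h6
  push_cast at h6
  rw [le_div_iff₀ (by positivity)]
  have h7 := le_abs_self (log (2 / log b))
  have h8 := neg_abs_le (log θ)
  linarith

/-- `PT` is the disjoint union of `NB` and `RR` -/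
theorem PT_split (ha : 1 < a) (hb : 1 < b) {x T : ℝ} (hx : 2 ≤ x) (hT : 2 / log a * log x ≤ T) :
    (PT a b x T).Finite ∧
      ((PT a b x T).ncard : ℝ) = (NB a b x).ncard + (RR a b x T).ncard := by
  have hA : 0 < log a := log_pos ha
  have hlx : 0 ≤ log x := log_nonneg (by linarith)
  have hx0 : 0 < x := by linarith
  have hT0 : 0 ≤ T := le_trans (by positivity) hT
  obtain ⟨C, -, hC⟩ := NB_count ha hb
  have h1 := (hC x hx).1
  have h2 := (RR_card ha hb hx hT0).1
  have e : PT a b x T = NB a b x ∪ RR a b x T := by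
    ext p
    simp only [mem_union, PT, NB, RR, mem_ofPred_eq]
    constructor
    · rintro ⟨h3, h4⟩
      rcases le_or_gt (a ^ p.1) (x ^ 2) with h5 | h5
      · exact Or.inl ⟨h4, h5⟩
      · exact Or.inr ⟨h3, h4, h5⟩
    · rintro (⟨h3, h4⟩ | ⟨h3, h4, -⟩)
      · refine ⟨?_, h3⟩
        have h5 := (pow_le_iff_log ha (by positivity) _).1 h4
        rw [Real.log_pow] at h5
        refine h5.trans (le_trans (le_of_eq ?_) hT)
        push_cast
        ring
      · exact ⟨h3, h4⟩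
  have hd : Disjoint (NB a b x) (RR a b x T) := by
    rw [Set.disjoint_left]
    intro p hp hq
    exact absurd hp.2 (not_le.2 hq.2.2)
  rw [e]
  refine ⟨h1.union h2, ?_⟩
  rw [Set.ncard_union_eq hd h1 h2]
  push_cast
  ring

end Pool.Agent.U714.NC
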